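import Pool.Agent.H73.Xor.Final

/-!
# Resolution refutations, their paths, and walks following an assignment
-/

open Finset

namespace Pool.Agent.H73.Xor

/-- A resolution refutation of the CNF formula `F` with `N` clauses `cl t`, weakening allowed.
`just t = none`: the clause contains a clause of `F`. `just t = some (i, p, q)`: it is obtained by
resolving the earlier clauses `p` and `q` on the variable `i`; that is, every literal of `cl p`
other than `(i, true)` and every literal of `cl q` other than `(i, false)` lies in `cl t`.
The clause `root` is empty. -/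
structure Refutation {n : ℕ} (F : CNF n) (N : ℕ) where
  cl : Fin N → Clause n
  just : Fin N → Option (Fin n × Fin N × Fin N)
  leaf : ∀ t, just t = none → ∃ C ∈ F, C ⊆ cl t
  step : ∀ t i p q, just t = some (i, p, q) →
    p < t ∧ q < t ∧ cl p ⊆ insert (i, true) (cl t) ∧ cl q ⊆ insert (i, false) (cl t)
  root : Fin N
  root_empty : cl root = ∅

/-- `π.Path t t' l`: in the refutation `π` there is a path from the clause `t` to the clause `t'`,
each time going from a resolvent to one of the two clauses it was resolved from, and the variables
resolved on at its clauses, the last clause `t'` excluded, are in this order those of `l`. -/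
inductive Refutation.Path {n N : ℕ} {F : CNF n} (π : Refutation F N) :
    Fin N → Fin N → List (Fin n) → Prop
  | nil (t : Fin N) : Refutation.Path π t t []
  | cons {t p q c t' : Fin N} {i : Fin n} {l : List (Fin n)}
      (h : π.just t = some (i, p, q)) (hc : c = p ∨ c = q)
      (hp : Refutation.Path π c t' l) : Refutation.Path π t t' (i :: l)

section walk

variable {n N : ℕ} {F : CNF n} (π : Refutation F N)

variable {π} in
lemma Refutation.Path.append {t t' t'' : Fin N} {l l' : List (Fin n)}
    (h : π.Path t t' l) (h' : π.Path t' t'' l') : π.Path t t'' (l ++ l') := by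
  induction h with
  | nil t => simpa using h'
  | cons h1 hc _ ih => exact Refutation.Path.cons h1 hc (ih h')

/-- the assignment falsifies every literal of the clause -/
def Fal {n : ℕ} (x : Fin n → Bool) (C : Clause n) : Prop := ∀ l ∈ C, x l.1 = !l.2

lemma fal_iff {n : ℕ} {x : Fin n → Bool} {C : Clause n} : Fal x C ↔ ¬ Satisfies x C := by
  unfold Fal Satisfies
  constructor
  · rintro h ⟨l, hl, hx⟩
    rw [h l hl] at hx
    revert hx
    cases l.2 <;> simp
  · intro h l hl
    by_contra hne
    apply h
    refine ⟨l, hl, ?_⟩
    revert hne
    cases x l.1 <;> cases l.2 <;> simp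

/-- the variables of a clause -/
def vars {n : ℕ} (C : Clause n) : Finset (Fin n) := C.image Prod.fst

lemma fal_next {t p q : Fin N} {i : Fin n} (h : π.just t = some (i, p, q)) {x : Fin n → Bool}
    (hx : Fal x (π.cl t)) : Fal x (π.cl (if x i = true then q else p)) := by
  obtain ⟨-, -, hp, hq⟩ := π.step t i p q h
  intro l hl
  cases hi : x i
  · rw [hi] at hl
    simp only [Bool.false_eq_true, if_false] at hl
    have := hp hl
    rw [mem_insert] at this
    rcases this with rfl | h1
    · simp [hi]
    · exact hx l h1
  · rw [hi] at hl
    simp only [if_true] at hl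
    have := hq hl
    rw [mem_insert] at this
    rcases this with rfl | h1
    · simp [hi]
    · exact hx l h1

lemma vars_next {t p q : Fin N} {i : Fin n} (h : π.just t = some (i, p, q)) {c : Fin N}
    (hc : c = p ∨ c = q) : vars (π.cl c) ⊆ insert i (vars (π.cl t)) := by
  obtain ⟨-, -, hp, hq⟩ := π.step t i p q h
  intro v hv
  rw [vars, mem_image] at hv
  obtain ⟨l, hl, rfl⟩ := hv
  have : l = (i, true) ∨ l = (i, false) ∨ l ∈ π.cl t := by
    rcases hc with rfl | rfl
    · have := hp hl
      rw [mem_insert] at this
      tauto
    · have := hq hl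
      rw [mem_insert] at this
      tauto
  rw [mem_insert]
  rcases this with rfl | rfl | h1
  · exact Or.inl rfl
  · exact Or.inl rfl
  · exact Or.inr (mem_image.2 ⟨l, h1, rfl⟩)

/-- following an assignment down to a leaf -/
lemma descend (x : Fin n → Bool) : ∀ (m : ℕ) (t : Fin N), t.1 ≤ m → Fal x (π.cl t) →
    ∃ (t' : Fin N) (l : List (Fin n)), π.Path t t' l ∧ π.just t' = none ∧ Fal x (π.cl t') ∧
      vars (π.cl t') ⊆ vars (π.cl t) ∪ l.toFinset := by
  classical
  intro m
  induction m with
  | zero =>
    intro t ht hx
    rcases hj : π.just t with _ | ⟨i, p, q⟩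
    · exact ⟨t, [], .nil t, hj, hx, by simp⟩
    · obtain ⟨hp, -, -, -⟩ := π.step t i p q hj
      have : p.1 < t.1 := hp
      omega
  | succ m ih =>
    intro t ht hx
    rcases hj : π.just t with _ | ⟨i, p, q⟩
    · exact ⟨t, [], .nil t, hj, hx, by simp⟩
    · obtain ⟨hp, hq, -, -⟩ := π.step t i p q hj
      have hp' : p.1 < t.1 := hp
      have hq' : q.1 < t.1 := hq
      have hc : (if x i = true then q else p) = p ∨ (if x i = true then q else p) = q := by
        cases x i <;> simp
      obtain ⟨t', l, hpath, hnone, hfal, hvars⟩ := ih (if x i = true then q else p)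
        (by split_ifs <;> omega) (fal_next π hj hx)
      refine ⟨t', i :: l, .cons hj hc hpath, hnone, hfal, ?_⟩
      intro v hv
      have h1 := hvars hv
      rw [mem_union] at h1
      rw [mem_union, List.mem_toFinset, List.mem_cons]
      rcases h1 with h1 | h1
      · have h2 := vars_next π hj hc h1
        rw [mem_insert] at h2
        tauto
      · rw [List.mem_toFinset] at h1
        tauto

/-- one step of the walk along `x`; it stops at leaves and once `n - r` variables are known -/
def walkStep (r : ℕ) (x : Fin n → Bool) (s : Fin N × Finset (Fin n)) : Fin N × Finset (Fin n) :=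
  if n ≤ s.2.card + r then s else
    match π.just s.1 with
    | none => s
    | some (i, p, q) => (if x i = true then q else p, insert i s.2)

/-- the state of the walk after `m` steps -/
def walk (r : ℕ) (x : Fin n → Bool) : ℕ → Fin N × Finset (Fin n)
  | 0 => (π.root, ∅)
  | m + 1 => walkStep π r x (walk r x m)

lemma walkStep_cases (r : ℕ) (x : Fin n → Bool) (s : Fin N × Finset (Fin n)) :
    ((n ≤ s.2.card + r ∨ π.just s.1 = none) ∧ walkStep π r x s = s) ∨
    (¬ n ≤ s.2.card + r ∧ ∃ i p q, π.just s.1 = some (i, p, q) ∧
      walkStep π r x s = (if x i = true then q else p, insert i s.2)) := by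
  unfold walkStep
  by_cases h : n ≤ s.2.card + r
  · left
    rw [if_pos h]
    exact ⟨Or.inl h, rfl⟩
  · rw [if_neg h]
    rcases hj : π.just s.1 with _ | ⟨i, p, q⟩
    · left
      exact ⟨Or.inr rfl, rfl⟩
    · right
      exact ⟨h, i, p, q, rfl, rfl⟩

lemma walk_invariants (r : ℕ) (hr : r ≤ n) (x : Fin n → Bool) (m : ℕ) :
    (∃ l, π.Path π.root (walk π r x m).1 l ∧ l.toFinset = (walk π r x m).2) ∧
    Fal x (π.cl (walk π r x m).1) ∧
    vars (π.cl (walk π r x m).1) ⊆ (walk π r x m).2 ∧
    (walk π r x m).2.card + r ≤ n := by
  classical
  induction m with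
  | zero =>
    refine ⟨⟨[], .nil _, rfl⟩, ?_, ?_, ?_⟩
    · intro l hl
      have : l ∈ (∅ : Clause n) := by
        rw [← π.root_empty]
        exact hl
      simp at this
    · intro v hv
      have : v ∈ vars (π.cl π.root) := hv
      rw [π.root_empty] at this
      simp [vars] at this
    · simpa [walk] using hr
  | succ m ih =>
    obtain ⟨⟨l, hl, hlT⟩, hfal, hvars, hcard⟩ := ih
    rcases walkStep_cases π r x (walk π r x m) with ⟨-, h⟩ | ⟨hlt, i, p, q, hj, h⟩
    · have h' : walk π r x (m + 1) = walk π r x m := h
      rw [h']
      exact ⟨⟨l, hl, hlT⟩, hfal, hvars, hcard⟩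
    · have h' : walk π r x (m + 1) = (if x i = true then q else p, insert i (walk π r x m).2) := h
      have hc : (if x i = true then q else p) = p ∨ (if x i = true then q else p) = q := by
        cases x i <;> simp
      rw [h']
      refine ⟨⟨l ++ [i], hl.append (.cons hj hc (.nil _)), ?_⟩, fal_next π hj hfal, ?_, ?_⟩
      · rw [List.toFinset_append, hlT]
        ext v
        simp
      · exact (vars_next π hj hc).trans (insert_subset_insert _ hvars)
      · have := card_insert_le i (walk π r x m).2
        simp only
        omega

lemma walk_mono (r : ℕ) (x : Fin n → Bool) (m : ℕ) :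
    (walk π r x m).2 ⊆ (walk π r x (m + 1)).2 := by
  rcases walkStep_cases π r x (walk π r x m) with ⟨-, h⟩ | ⟨-, i, p, q, -, h⟩
  · have h' : walk π r x (m + 1) = walk π r x m := h
    rw [h']
  · have h' : walk π r x (m + 1) = (if x i = true then q else p, insert i (walk π r x m).2) := h
    rw [h']
    exact subset_insert _ _

lemma walk_congr (r : ℕ) (x y : Fin n → Bool) (m : ℕ)
    (h : ∀ i ∈ (walk π r x m).2, y i = x i) : walk π r y m = walk π r x m := by
  induction m with
  | zero => rfl
  | succ m ih =>
    have ih' := ih fun i hi => h i (walk_mono π r x m hi)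
    rcases walkStep_cases π r x (walk π r x m) with ⟨hs, h1⟩ | ⟨hs, i, p, q, hj, h1⟩
    · have h1' : walk π r x (m + 1) = walk π r x m := h1
      have h2' : walk π r y (m + 1) = walkStep π r y (walk π r y m) := rfl
      rw [h1', h2', ih']
      rcases walkStep_cases π r y (walk π r x m) with ⟨_, h3⟩ | ⟨h3, i, p, q, hj, _⟩
      · exact h3
      · rcases hs with hs | hs
        · exact absurd hs h3
        · rw [hs] at hj
          simp at hj
    · have h1' : walk π r x (m + 1) =
        (if x i = true then q else p, insert i (walk π r x m).2) := h1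
      have hyi : y i = x i := by
        apply h
        rw [h1']
        exact mem_insert_self _ _
      have h2' : walk π r y (m + 1) = walkStep π r y (walk π r y m) := rfl
      rw [h1', h2', ih']
      rcases walkStep_cases π r y (walk π r x m) with ⟨h3, _⟩ | ⟨_, i', p', q', hj', h4⟩
      · rcases h3 with h3 | h3
        · exact absurd h3 hs
        · rw [h3] at hj
          simp at hj
      · rw [hj] at hj'
        simp only [Option.some.injEq, Prod.mk.injEq] at hj'
        obtain ⟨rfl, rfl, rfl⟩ := hj'
        rw [h4, hyi]

lemma walk_stops (r : ℕ) (x : Fin n → Bool) (m : ℕ) :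
    ((n ≤ (walk π r x m).2.card + r ∨ π.just (walk π r x m).1 = none)) ∨
      (walk π r x m).1.1 + m ≤ π.root.1 := by
  induction m with
  | zero => right; simp [walk]
  | succ m ih =>
    rcases walkStep_cases π r x (walk π r x m) with ⟨hs, h⟩ | ⟨hs, i, p, q, hj, h⟩
    · have h' : walk π r x (m + 1) = walk π r x m := h
      rw [h']
      exact Or.inl hs
    · have h' : walk π r x (m + 1) = (if x i = true then q else p, insert i (walk π r x m).2) := h
      rcases ih with ih | ih
      · rcases ih with ih | ih
        · exact absurd ih hs
        · rw [ih] at hj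
          simp at hj
      · right
        rw [h']
        obtain ⟨hp, hq, -, -⟩ := π.step _ i p q hj
        have hp' : p.1 < (walk π r x m).1.1 := hp
        have hq' : q.1 < (walk π r x m).1.1 := hq
        simp only
        split_ifs <;> omega

lemma walk_end (r : ℕ) (x : Fin n → Bool) :
    n ≤ (walk π r x N).2.card + r ∨ π.just (walk π r x N).1 = none := by
  rcases walk_stops π r x N with h | h
  · exact h
  · have := π.root.2
    omega

end walk

end Pool.Agent.H73.Xor
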