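import Pool.Agent.H73.Xor.Cnf

/-!
# From the parameter `ℓ` to the clause width `k`
-/

open Finset

namespace Pool.Agent.H73.Xor

lemma exists_level {k : ℕ} (hk : 2 ^ 16 * 6 ^ 2 ≤ k) :
    ∃ ℓ, 2 ^ (2 * ℓ + 16) * (ℓ + 6) ^ 2 ≤ k ∧ k < 2 ^ (2 * ℓ + 18) * (ℓ + 7) ^ 2 := by
  classical
  have hex : ∃ ℓ, k < 2 ^ (2 * ℓ + 16) * (ℓ + 6) ^ 2 := by
    refine ⟨k, ?_⟩
    calc k < 2 ^ k := Nat.lt_two_pow_self
      _ ≤ 2 ^ (2 * k + 16) * 1 := by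
          rw [mul_one]; exact Nat.pow_le_pow_right (by norm_num) (by omega)
      _ ≤ _ := Nat.mul_le_mul_left _ (Nat.one_le_pow _ _ (by omega))
  set m := Nat.find hex with hm
  have hm1 := Nat.find_spec hex
  rw [← hm] at hm1
  have hm0 : m ≠ 0 := by
    intro h
    rw [h] at hm1
    norm_num at hm1 hk
    omega
  obtain ⟨ℓ, hℓ⟩ : ∃ ℓ, m = ℓ + 1 := ⟨m - 1, by omega⟩
  refine ⟨ℓ, ?_, ?_⟩
  · have := Nat.find_min hex (m := ℓ) (by omega)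
    exact not_lt.1 this
  · rw [hℓ] at hm1
    have h1 : 2 * (ℓ + 1) + 16 = 2 * ℓ + 18 := by ring
    have h2 : ℓ + 1 + 6 = ℓ + 7 := by ring
    rw [h1, h2] at hm1
    exact hm1

lemma trivial_range {k : ℕ} (hk2 : 2 ≤ k) (hk : k < 2 ^ 16 * 6 ^ 2) :
    1 ≤ 768 * Real.logb 2 k / √(k : ℝ) := by
  have hkR : (2 : ℝ) ≤ k := by exact_mod_cast hk2
  have hlog1 : 1 ≤ Real.logb 2 k := by
    rw [Real.le_logb_iff_rpow_le (by norm_num) (by linarith)]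
    simpa using hkR
  have hsq : 0 < √(k : ℝ) := Real.sqrt_pos.2 (by linarith)
  rw [le_div_iff₀ hsq, one_mul]
  rcases le_or_gt k (2 ^ 18) with h | h
  · have : √(k : ℝ) ≤ 512 := by
      rw [Real.sqrt_le_left (by norm_num)]
      have : (k : ℝ) ≤ 2 ^ 18 := by exact_mod_cast h
      norm_num at this ⊢
      exact this
    linarith
  · have h18 : 18 ≤ Real.logb 2 k := by
      rw [Real.le_logb_iff_rpow_le (by norm_num) (by linarith)]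
      have : (2 : ℝ) ^ 18 ≤ k := by exact_mod_cast h.le
      norm_num at this ⊢
      exact this
    have : √(k : ℝ) ≤ 1536 := by
      rw [Real.sqrt_le_left (by norm_num)]
      have : (k : ℝ) ≤ 2 ^ 16 * 6 ^ 2 := by exact_mod_cast hk.le
      norm_num at this ⊢
      linarith
    linarith

lemma level_bound {k ℓ : ℕ} (h1 : 2 ^ (2 * ℓ + 16) * (ℓ + 6) ^ 2 ≤ k)
    (h2 : k < 2 ^ (2 * ℓ + 18) * (ℓ + 7) ^ 2) :
    3 / 2 ^ ℓ ≤ 768 * Real.logb 2 k / √(k : ℝ) := by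
  have hkpos : 0 < k :=
    lt_of_lt_of_le (Nat.mul_pos (Nat.pow_pos (by norm_num)) (Nat.pow_pos (by omega))) h1
  have hkR : (0 : ℝ) < k := by exact_mod_cast hkpos
  have hsq : 0 < √(k : ℝ) := Real.sqrt_pos.2 hkR
  have hsqle : √(k : ℝ) ≤ 2 ^ (ℓ + 9) * (ℓ + 7) := by
    rw [Real.sqrt_le_left (mul_nonneg (pow_nonneg (by norm_num) _)
      (add_nonneg (Nat.cast_nonneg _) (by norm_num)))]
    have h3 : (k : ℝ) ≤ 2 ^ (2 * ℓ + 18) * (ℓ + 7) ^ 2 := by exact_mod_cast h2.le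
    refine h3.trans (le_of_eq ?_)
    rw [mul_pow, ← pow_mul]
    congr 2
    ring
  have hlog : (2 * ℓ + 16 : ℝ) ≤ Real.logb 2 k := by
    rw [Real.le_logb_iff_rpow_le (by norm_num) hkR]
    have h4 : 2 ^ (2 * ℓ + 16) ≤ k := by
      refine le_trans ?_ h1
      exact Nat.le_mul_of_pos_right _ (Nat.pow_pos (by omega))
    have h5 : ((2 : ℝ) ^ (2 * ℓ + 16 : ℕ)) ≤ k := by exact_mod_cast h4
    have h6 : (2 * ℓ + 16 : ℝ) = ((2 * ℓ + 16 : ℕ) : ℝ) := by push_cast; ring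
    rw [h6, Real.rpow_natCast]
    exact h5
  rw [div_le_div_iff₀ (by positivity) hsq]
  calc 3 * √(k : ℝ) ≤ 3 * (2 ^ (ℓ + 9) * (ℓ + 7)) := by gcongr
    _ = 768 * (2 * ℓ + 14) * 2 ^ ℓ := by rw [pow_add]; ring
    _ ≤ 768 * Real.logb 2 k * 2 ^ ℓ := by
        gcongr
        linarith

/-- passing from levels to widths -/
theorem final_choice {k : ℕ} (hk2 : 2 ≤ k) (P : (n : ℕ) → CNF n → ℝ → Prop)
    (hP0 : ∀ n F N, P n F N → 1 ≤ N)
    (h : ∀ ℓ : ℕ, 2 ^ (2 * ℓ + 16) * (ℓ + 6) ^ 2 ≤ k → ∃ n0, ∀ n, n0 ≤ n →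
      ∃ F : CNF n, IsKCNF k F ∧ Unsat F ∧ ∀ N, P n F N →
        ∃ m : ℕ, m * 2 ^ ℓ ≤ 3 * n ∧ (2 : ℝ) ^ n ≤ 2 ^ m * N) :
    ∃ n0, ∀ n, n0 ≤ n → ∃ F : CNF n, IsKCNF k F ∧ Unsat F ∧ ∀ N, P n F N →
      (2 : ℝ) ^ ((1 - 768 * Real.logb 2 k / √(k : ℝ)) * n) ≤ N := by
  rcases lt_or_ge k (2 ^ 16 * 6 ^ 2) with hk | hk
  · refine ⟨1, fun n hn => ?_⟩
    obtain ⟨n', rfl⟩ : ∃ n', n = n' + 1 := ⟨n - 1, by omega⟩
    refine ⟨{{(0, true)}, {(0, false)}}, ?_, ?_, ?_⟩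
    · intro C hC
      rw [mem_insert, mem_singleton] at hC
      rcases hC with rfl | rfl <;> simp <;> omega
    · intro x
      cases hx : x 0
      · exact ⟨{(0, true)}, by simp, by simp [Satisfies, hx]⟩
      · exact ⟨{(0, false)}, by simp, by simp [Satisfies, hx]⟩
    · intro N hN
      have h1 : (1 : ℝ) ≤ N := hP0 _ _ _ hN
      refine le_trans ?_ h1
      apply Real.rpow_le_one_of_one_le_of_nonpos (by norm_num)
      refine mul_nonpos_of_nonpos_of_nonneg ?_ (Nat.cast_nonneg _)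
      have := trivial_range hk2 hk
      linarith
  · obtain ⟨ℓ, hℓ1, hℓ2⟩ := exists_level hk
    obtain ⟨n0, hn0⟩ := h ℓ hℓ1
    refine ⟨n0, fun n hn => ?_⟩
    obtain ⟨F, hFk, hFu, hF⟩ := hn0 n hn
    refine ⟨F, hFk, hFu, fun N hN => ?_⟩
    obtain ⟨m, hm, hmN⟩ := hF N hN
    have hlb := level_bound hℓ1 hℓ2
    have hmR : (m : ℝ) ≤ 3 / 2 ^ ℓ * n := by
      rw [div_mul_eq_mul_div, le_div_iff₀ (by positivity)]
      exact_mod_cast hm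
    have hm2 : (m : ℝ) ≤ 768 * Real.logb 2 k / √(k : ℝ) * n :=
      hmR.trans (mul_le_mul_of_nonneg_right hlb (Nat.cast_nonneg _))
    have h1 : (2 : ℝ) ^ n ≤ 2 ^ m * N := hmN
    have h2 : (2 : ℝ) ^ ((n : ℝ) - m) ≤ N := by
      rw [Real.rpow_sub (by norm_num), Real.rpow_natCast, Real.rpow_natCast,
        div_le_iff₀ (by positivity), mul_comm]
      exact h1
    refine le_trans ?_ h2
    apply Real.rpow_le_rpow_of_exponent_le (by norm_num)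
    have : (1 - 768 * Real.logb 2 k / √(k : ℝ)) * n = n - 768 * Real.logb 2 k / √(k : ℝ) * n := by
      ring
    rw [this]
    linarith

end Pool.Agent.H73.Xor
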