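import Pool.Agent.H73.Xor.Count2

/-!
# Choice of the parameters
-/

open Finset

namespace Pool.Agent.H73.Xor

lemma exp_one_le_four : Real.exp 1 ≤ 4 := by
  have := Real.exp_one_lt_d9
  linarith

lemma exp_nat_le (e : ℕ) : Real.exp e ≤ 4 ^ e := by
  have h : Real.exp (e : ℝ) = Real.exp 1 ^ e := by
    rw [← Real.exp_nat_mul, mul_one]
  rw [h]
  exact pow_le_pow_left₀ (Real.exp_pos _).le exp_one_le_four e

lemma choose_bound {N m e : ℕ} (g : ℕ) (hm : 0 < m) (hN : N ≤ m * e) :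
    N.choose g ≤ m ^ g * 4 ^ e := by
  have hmR : (0 : ℝ) < m := by exact_mod_cast hm
  rcases Nat.lt_or_ge N g with h | h
  · rw [Nat.choose_eq_zero_of_lt h]
    exact Nat.zero_le _
  have h1 : (1 / (m : ℝ)) ^ g * (N.choose g : ℝ) ≤ (1 / (m : ℝ) + 1) ^ N := by
    rw [add_pow]
    have := Finset.single_le_sum (f := fun i => (1 / (m : ℝ)) ^ i * 1 ^ (N - i) * (N.choose i : ℝ))
      (s := Finset.range (N + 1)) (fun i _ => by positivity)
      (Finset.mem_range.2 (Nat.lt_succ_of_le h))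
    simpa using this
  have h2 : (1 / (m : ℝ) + 1) ^ N ≤ 4 ^ e := by
    calc (1 / (m : ℝ) + 1) ^ N ≤ (Real.exp (1 / m)) ^ N :=
          pow_le_pow_left₀ (by positivity) (Real.add_one_le_exp _) N
      _ = Real.exp (N / m) := by rw [← Real.exp_nat_mul]; congr 1; ring
      _ ≤ Real.exp e := by
          apply Real.exp_le_exp.2
          rw [div_le_iff₀ hmR]
          have : (N : ℝ) ≤ m * e := by exact_mod_cast hN
          linarith
      _ ≤ 4 ^ e := exp_nat_le e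
  have h3 : (N.choose g : ℝ) ≤ (m : ℝ) ^ g * 4 ^ e := by
    have h4 := h1.trans h2
    rw [one_div, inv_pow, inv_mul_le_iff₀ (by positivity)] at h4
    exact h4
  exact_mod_cast h3

lemma pow_add_three_le {M N e : ℕ} (hM : 0 < M) (h : 3 * N ≤ M * e) :
    (M + 3) ^ N ≤ M ^ N * 4 ^ e := by
  have hMR : (0 : ℝ) < M := by exact_mod_cast hM
  have h1 : ((M : ℝ) + 3) ^ N ≤ (M : ℝ) ^ N * 4 ^ e := by
    calc ((M : ℝ) + 3) ^ N = (M : ℝ) ^ N * (3 / M + 1) ^ N := by
          rw [← mul_pow]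
          congr 1
          field_simp
          ring
      _ ≤ (M : ℝ) ^ N * (Real.exp (3 / M)) ^ N := by
          refine mul_le_mul_of_nonneg_left ?_ (by positivity)
          exact pow_le_pow_left₀ (by positivity) (Real.add_one_le_exp _) N
      _ = (M : ℝ) ^ N * Real.exp (3 * N / M) := by
          rw [← Real.exp_nat_mul]; congr 2; ring
      _ ≤ (M : ℝ) ^ N * Real.exp e := by
          refine mul_le_mul_of_nonneg_left ?_ (by positivity)
          apply Real.exp_le_exp.2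
          rw [div_le_iff₀ hMR]
          have : (3 * N : ℝ) ≤ M * e := by exact_mod_cast h
          linarith
      _ ≤ (M : ℝ) ^ N * 4 ^ e := mul_le_mul_of_nonneg_left (exp_nat_le e) (by positivity)
  exact_mod_cast h1

lemma bern (x n : ℕ) : x ^ (n + 1) + (n + 1) * x ^ n ≤ (x + 1) ^ (n + 1) := by
  induction n with
  | zero => simp
  | succ n ih =>
    calc x ^ (n + 1 + 1) + (n + 1 + 1) * x ^ (n + 1)
        ≤ (x ^ (n + 1) + (n + 1) * x ^ n) * (x + 1) := by
          have : (x ^ (n + 1) + (n + 1) * x ^ n) * (x + 1) =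
            x ^ (n + 1 + 1) + (n + 1 + 1) * x ^ (n + 1) + (n + 1) * x ^ n := by ring
          rw [this]
          exact Nat.le_add_right _ _
      _ ≤ (x + 1) ^ (n + 1) * (x + 1) := Nat.mul_le_mul_right _ ih
      _ = _ := by ring

lemma two_mul_pow_le {m : ℕ} (hm : 0 < m) : 2 * (m - 1) ^ m ≤ m ^ m := by
  obtain ⟨x, rfl⟩ : ∃ x, m = x + 1 := ⟨m - 1, by omega⟩
  have h := bern x x
  rw [Nat.add_sub_cancel]
  calc 2 * x ^ (x + 1) = x ^ (x + 1) + x * x ^ x := by ring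
    _ ≤ x ^ (x + 1) + (x + 1) * x ^ x := by gcongr; omega
    _ ≤ _ := h

lemma factorial_bound (β : ℕ) : 2 ^ β * β ^ (4 * β) ≤ (4 * β).factorial := by
  have h1 := Real.pow_div_factorial_le_exp (4 * β : ℝ) (by positivity) (4 * β)
  have h2 : Real.exp (4 * β : ℝ) ≤ 128 ^ β := by
    have : Real.exp (4 * β : ℝ) = (Real.exp 1 ^ 4) ^ β := by
      rw [← pow_mul, ← Real.exp_nat_mul]
      congr 1
      push_cast
      ring
    rw [this]
    refine pow_le_pow_left₀ (by positivity) ?_ β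
    have h3 := Real.exp_one_lt_d9
    have h4 : Real.exp 1 ≤ 3 := by linarith
    calc Real.exp 1 ^ 4 ≤ 3 ^ 4 := pow_le_pow_left₀ (Real.exp_pos _).le h4 4
      _ ≤ 128 := by norm_num
  have hf : (0 : ℝ) < ((4 * β).factorial : ℝ) := by exact_mod_cast Nat.factorial_pos _
  rw [div_le_iff₀ hf] at h1
  have h5 : ((4 * β : ℝ)) ^ (4 * β) = 128 ^ β * (2 ^ β * (β : ℝ) ^ (4 * β)) := by
    rw [mul_pow, pow_mul, ← mul_assoc, ← mul_pow]
    norm_num
  rw [h5] at h1
  have h6 : (128 : ℝ) ^ β * (2 ^ β * (β : ℝ) ^ (4 * β)) ≤ 128 ^ β * ((4 * β).factorial : ℝ) :=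
    h1.trans (mul_le_mul_of_nonneg_right h2 hf.le)
  have h7 := le_of_mul_le_mul_left h6 (by positivity)
  exact_mod_cast h7

theorem exists_system (ℓ k : ℕ) (hk : 2 ^ (2 * ℓ + 16) * (ℓ + 6) ^ 2 ≤ k) :
    ∃ n0, ∀ n, n0 ≤ n → ∃ M c K L D r : ℕ, 0 < M ∧ L ≤ c ∧ 4 * K * L ≤ c + 1 ∧
      1 ≤ D ∧ n ≤ D * k ∧
      2 * K * (c.choose L * D ^ L) ≤ M ^ L ∧ (M + 2 * r + 1) * 2 ^ ℓ ≤ 3 * n ∧
      ∃ a : Fin n → Fin M → ZMod 2, Good a c K D r k := by
  set β := ℓ + 6 with hβ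
  set m0 := 2 ^ (ℓ + 9) with hm0
  set U := 2 ^ (ℓ + 6) * m0 * β ^ 2 + 3 with hU
  refine ⟨2 ^ ℓ * (8 * β * m0 * U), fun n hn => ?_⟩
  set r := n / 2 ^ ℓ with hr
  set u := r / (8 * β * m0) with hu
  have hm0pos : 0 < m0 := by positivity
  have hβpos : 0 < β := by omega
  have h8 : 0 < 8 * β * m0 := by positivity
  have h2l : 0 < 2 ^ ℓ := by positivity
  have hrU : 8 * β * m0 * U ≤ r := by
    rw [hr, Nat.le_div_iff_mul_le h2l, mul_comm]
    exact hn
  have huU : U ≤ u := by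
    rw [hu, Nat.le_div_iff_mul_le h8, mul_comm]
    exact hrU
  have hu3 : 3 ≤ u := le_trans (by omega) huU
  have hru : 8 * β * m0 * u ≤ r := by
    rw [hu]; exact Nat.mul_div_le r _
  have hru2 : r < 8 * β * m0 * (u + 1) := by
    rw [hu]; exact Nat.lt_mul_div_succ r h8
  have hrn : 2 ^ ℓ * r ≤ n := by rw [hr]; exact Nat.mul_div_le n _
  have hrn2 : n < 2 ^ ℓ * (r + 1) := by rw [hr]; exact Nat.lt_mul_div_succ n h2l
  set M := m0 * u with hM
  have hMpos : 0 < M := Nat.mul_pos hm0pos (by omega)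
  have hMr8 : 8 * β * M ≤ r := by
    calc 8 * β * M = 8 * β * m0 * u := by rw [hM]; ring
      _ ≤ r := hru
  have h48 : 48 * M ≤ r := by
    refine le_trans ?_ hMr8
    have : 6 ≤ β := by omega
    calc 48 * M = 8 * 6 * M := by ring
      _ ≤ 8 * β * M := by gcongr
  have hr100 : 100 ≤ r := by
    refine le_trans ?_ hrU
    have h1 : 6 ≤ β := by omega
    have h2 : 3 ≤ U := by omega
    have h3 : 1 ≤ m0 := hm0pos
    calc 100 ≤ 8 * 6 * 1 * 3 := by norm_num
      _ ≤ 8 * β * m0 * U := by gcongr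
  set c := m0 * β with hc
  set K := 2 ^ (ℓ + 5) with hK
  have h2K : 2 * K = 2 ^ β := by rw [hK, hβ, ← pow_succ']
  have h2KcM : 2 * K * c ^ 2 ≤ M := by
    calc 2 * K * c ^ 2 = m0 * (2 ^ (ℓ + 6) * m0 * β ^ 2) := by rw [h2K, hβ, hc]; ring
      _ ≤ m0 * U := by gcongr; omega
      _ ≤ m0 * u := by gcongr
      _ = M := rfl
  have hN2le : 2 * n ≤ 2 ^ (ℓ + 1) * (r + 1) := by
    calc 2 * n ≤ 2 * (2 ^ ℓ * (r + 1)) := by omega
      _ = 2 ^ (ℓ + 1) * (r + 1) := by rw [pow_succ]; ring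
  have hlM : (ℓ + 4) * M * 8 ≤ r := by
    refine le_trans ?_ hMr8
    calc (ℓ + 4) * M * 8 = 8 * (ℓ + 4) * M := by ring
      _ ≤ 8 * β * M := by gcongr; omega
  have h3n : 3 * n ≤ 2 ^ (ℓ + 5) * β * M := by
    have h1 : n ≤ 2 ^ ℓ * (8 * β * m0 * (u + 1)) := by
      refine hrn2.le.trans (Nat.mul_le_mul_left _ ?_)
      omega
    calc 3 * n ≤ 3 * (2 ^ ℓ * (8 * β * m0 * (u + 1))) := by omega
      _ = 2 ^ ℓ * 8 * β * m0 * (3 * (u + 1)) := by ring
      _ ≤ 2 ^ ℓ * 8 * β * m0 * (4 * u) := Nat.mul_le_mul_left _ (by omega)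
      _ = 2 ^ (ℓ + 5) * β * M := by rw [hM, pow_add]; ring
  refine ⟨M, c, K, 4 * β, u, r, hMpos, ?_, ?_, by omega, ?_, ?_, ?_, ?_⟩
  · -- L ≤ c
    rw [hc]
    refine Nat.mul_le_mul_right _ ?_
    calc 4 = 2 ^ 2 := by norm_num
      _ ≤ 2 ^ (ℓ + 9) := Nat.pow_le_pow_right (by norm_num) (by omega)
  · -- 4 K L ≤ c + 1
    have : 4 * K * (4 * β) = c := by
      rw [hK, hc, hm0]
      have : 2 ^ (ℓ + 9) = 16 * 2 ^ (ℓ + 5) := by rw [pow_add, pow_add]; ring
      rw [this]; ring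
    omega
  · -- n ≤ D k
    calc n ≤ 3 * n := by omega
      _ ≤ 2 ^ (ℓ + 5) * β * M := h3n
      _ = u * (2 ^ (2 * ℓ + 14) * β) := by
          rw [hM, hm0]
          have : 2 ^ (2 * ℓ + 14) = 2 ^ (ℓ + 5) * 2 ^ (ℓ + 9) := by
            rw [← pow_add]; congr 1; ring
          rw [this]; ring
      _ ≤ u * (2 ^ (2 * ℓ + 16) * β ^ 2) := by
          refine Nat.mul_le_mul_left _ (Nat.mul_le_mul ?_ ?_)
          · exact Nat.pow_le_pow_right (by norm_num) (by omega)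
          · rw [sq]; exact Nat.le_mul_of_pos_left _ hβpos
      _ ≤ u * k := Nat.mul_le_mul_left _ hk
  · -- P5
    have h1 : c.choose (4 * β) * (4 * β).factorial ≤ c ^ (4 * β) := by
      rw [mul_comm, ← Nat.descFactorial_eq_factorial_mul_choose]
      exact Nat.descFactorial_le_pow _ _
    have h2 := factorial_bound β
    have hf : 0 < (4 * β).factorial := Nat.factorial_pos _
    refine Nat.le_of_mul_le_mul_right ?_ hf
    calc 2 * K * (c.choose (4 * β) * u ^ (4 * β)) * (4 * β).factorial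
        = 2 * K * (c.choose (4 * β) * (4 * β).factorial) * u ^ (4 * β) := by ring
      _ ≤ 2 * K * (c ^ (4 * β)) * u ^ (4 * β) := by gcongr
      _ = (2 ^ β * β ^ (4 * β)) * M ^ (4 * β) := by
          rw [h2K, hc, hM]
          rw [mul_pow, mul_pow]
          ring
      _ ≤ (4 * β).factorial * M ^ (4 * β) := Nat.mul_le_mul_right _ h2
      _ = _ := mul_comm _ _
  · -- size
    calc (M + 2 * r + 1) * 2 ^ ℓ ≤ (3 * r) * 2 ^ ℓ := by gcongr; omega
      _ = 3 * (2 ^ ℓ * r) := by ring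
      _ ≤ 3 * n := by omega
  · apply exists_good hMpos (by omega) _ (by positivity)
    · -- hN1
      have h1 : (2 * n).choose (r - M) ≤ (2 ^ (ℓ + 1)) ^ (r - M) * 4 ^ (r + 1) :=
        choose_bound _ (by positivity) hN2le
      have h2 : (2 * n).choose M ≤ (2 ^ (ℓ + 4)) ^ M * 4 ^ ((r + 1) / 8 + 1) := by
        refine choose_bound _ (by positivity) (hN2le.trans ?_)
        have h3 : r + 1 ≤ 8 * ((r + 1) / 8 + 1) := by omega
        calc 2 ^ (ℓ + 1) * (r + 1) ≤ 2 ^ (ℓ + 1) * (8 * ((r + 1) / 8 + 1)) := by gcongr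
          _ = 2 ^ (ℓ + 4) * ((r + 1) / 8 + 1) := by rw [pow_add, pow_add]; ring
      have h4 : ∀ x : ℕ, 4 ^ x = 2 ^ (2 * x) := by
        intro x
        rw [pow_mul]
        norm_num
      calc 4 * ((2 * n).choose M * (2 * n).choose (r - M))
          ≤ 4 * (((2 ^ (ℓ + 4)) ^ M * 4 ^ ((r + 1) / 8 + 1)) *
              ((2 ^ (ℓ + 1)) ^ (r - M) * 4 ^ (r + 1))) := by gcongr
        _ = 2 ^ (2 + (ℓ + 4) * M + 2 * ((r + 1) / 8 + 1) + (ℓ + 1) * (r - M) + 2 * (r + 1)) := by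
            rw [h4, h4, ← pow_mul, ← pow_mul, pow_add, pow_add, pow_add, pow_add]
            ring
        _ ≤ 2 ^ ((ℓ + 5) * (r - M)) := by
            refine Nat.pow_le_pow_right (by norm_num) ?_
            have h5 : (ℓ + 5) * (r - M) = (ℓ + 1) * (r - M) + 4 * (r - M) := by ring
            rw [h5]
            generalize (ℓ + 1) * (r - M) = z
            generalize (ℓ + 4) * M = y at hlM ⊢
            omega
        _ = K ^ (r - M) := by rw [hK, ← pow_mul]
    · -- hN2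
      have h1 : (2 * n).choose r ≤ (2 ^ (ℓ + 1)) ^ r * 4 ^ (r + 1) :=
        choose_bound _ (by positivity) hN2le
      have h4 : ∀ x : ℕ, 4 ^ x = 2 ^ (2 * x) := by
        intro x
        rw [pow_mul]
        norm_num
      calc 4 * ((2 * n).choose r * 2 ^ M)
          ≤ 4 * (((2 ^ (ℓ + 1)) ^ r * 4 ^ (r + 1)) * 2 ^ M) := by gcongr
        _ = 2 ^ (2 + (ℓ + 1) * r + 2 * (r + 1) + M) := by
            rw [h4, ← pow_mul, pow_add, pow_add, pow_add]
            ring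
        _ ≤ 2 ^ ((ℓ + 5) * r) := by
            refine Nat.pow_le_pow_right (by norm_num) ?_
            have h5 : (ℓ + 5) * r = (ℓ + 1) * r + 4 * r := by ring
            rw [h5]
            generalize (ℓ + 1) * r = z
            omega
        _ = K ^ r := by rw [hK, ← pow_mul]
    · -- hN3
      have h6 : 3 * (2 * n * c) ≤ M * (2 ^ (2 * ℓ + 15) * β ^ 2) := by
        calc 3 * (2 * n * c) = 2 * (3 * n) * c := by ring
          _ ≤ 2 * (2 ^ (ℓ + 5) * β * M) * c := by gcongr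
          _ = M * (2 ^ (2 * ℓ + 15) * β ^ 2) := by
              rw [hc, hm0]
              have : 2 ^ (2 * ℓ + 15) = 2 * 2 ^ (ℓ + 5) * 2 ^ (ℓ + 9) := by
                rw [← pow_succ', ← pow_add]; congr 1; ring
              rw [this]; ring
      have h7 := pow_add_three_le hMpos h6
      have h8' : 4 ^ (2 ^ (2 * ℓ + 15) * β ^ 2) ≤ 2 ^ k := by
        have : (4 : ℕ) ^ (2 ^ (2 * ℓ + 15) * β ^ 2) = 2 ^ (2 ^ (2 * ℓ + 16) * β ^ 2) := by
          have h9 : 2 ^ (2 * ℓ + 16) * β ^ 2 = 2 * (2 ^ (2 * ℓ + 15) * β ^ 2) := by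
            rw [pow_succ 2 (2 * ℓ + 15)]; ring
          have h10 : (4 : ℕ) = 2 ^ 2 := by norm_num
          rw [h9, h10, ← pow_mul]
        rw [this]
        exact Nat.pow_le_pow_right (by norm_num) hk
      have h4M : 4 * M ≤ n + 1 := by
        have h1 : r ≤ n := by
          refine le_trans ?_ hrn
          exact Nat.le_mul_of_pos_left _ h2l
        omega
      calc 4 * (M * (M + 3) ^ (2 * n * c))
          ≤ 4 * (M * (M ^ (2 * n * c) * 4 ^ (2 ^ (2 * ℓ + 15) * β ^ 2))) := by gcongr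
        _ ≤ 4 * (M * (M ^ (2 * n * c) * 2 ^ k)) := by gcongr
        _ = 2 ^ k * (4 * M) * M ^ (2 * n * c) := by ring
        _ ≤ 2 ^ k * (n + 1) * M ^ (2 * n * c) := by gcongr
        _ = _ := by rw [← pow_mul, mul_comm c]
    · -- hN4
      intro s hs
      have h1 : M - s ≤ (m0 - 1) * u := by
        have : M = (m0 - 1) * u + u := by
          rw [hM]
          obtain ⟨x, hx⟩ : ∃ x, m0 = x + 1 := ⟨m0 - 1, by omega⟩
          rw [hx, Nat.add_sub_cancel]; ring
        omega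
      have hcpos : 0 < c := Nat.mul_pos hm0pos hβpos
      have h2 : 2 * (K * (M - s) ^ c) ≤ M ^ c := by
        calc 2 * (K * (M - s) ^ c) ≤ 2 * (K * ((m0 - 1) * u) ^ c) := by gcongr
          _ = (2 * (m0 - 1) ^ m0) ^ β * u ^ c := by
              rw [mul_pow, ← mul_assoc, ← mul_assoc, h2K, hc, mul_pow 2, ← pow_mul]
          _ ≤ (m0 ^ m0) ^ β * u ^ c := by
              gcongr
              exact two_mul_pow_le hm0pos
          _ = M ^ c := by rw [hM, mul_pow, ← pow_mul]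
      have h3 : 2 * (K * (c ^ 2 * M ^ (c - 1))) ≤ M ^ c := by
        calc 2 * (K * (c ^ 2 * M ^ (c - 1))) = (2 * K * c ^ 2) * M ^ (c - 1) := by ring
          _ ≤ M * M ^ (c - 1) := by gcongr
          _ = M ^ c := by rw [← pow_succ']; congr 1; omega
      have h4 : 2 * (K * ((M - s) ^ c + c ^ 2 * M ^ (c - 1))) ≤ 2 * M ^ c := by
        calc _ = 2 * (K * (M - s) ^ c) + 2 * (K * (c ^ 2 * M ^ (c - 1))) := by ring
          _ ≤ M ^ c + M ^ c := Nat.add_le_add h2 h3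
          _ = 2 * M ^ c := by ring
      omega
    · -- even
      rw [hc, hm0, pow_succ, mul_assoc]
      refine Even.mul_left ?_ _
      exact even_two_mul _

end Pool.Agent.H73.Xor
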