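import Mathlib

/-!
# Linear systems over `ZMod 2`, cubes, and the counting lemma

`a : I → J → ZMod 2` is the family of columns of a matrix with row set `J`.
-/

open Finset

namespace Pool.Agent.H73.Xor

variable {I J : Type*} [Fintype I] [DecidableEq I] [Fintype J] [DecidableEq J]

/-- the matrix-vector product -/
def app (a : I → J → ZMod 2) (x : I → ZMod 2) : J → ZMod 2 := fun j => ∑ i, x i * a i j

lemma app_add (a : I → J → ZMod 2) (x y : I → ZMod 2) :
    app a (x + y) = app a x + app a y := by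
  funext j
  simp only [app, Pi.add_apply, add_mul, sum_add_distrib]

lemma app_zero (a : I → J → ZMod 2) : app a 0 = 0 := by
  funext j
  simp [app]

lemma z2_add_self {K : Type*} (x : K → ZMod 2) : x + x = 0 := by
  funext i
  exact CharTwo.add_self_eq_zero (x i)

lemma z2_eq_of_add_eq_zero {K : Type*} {x y : K → ZMod 2} (h : x + y = 0) : x = y := by
  have : x + y + y = y := by rw [h, zero_add]
  rwa [add_assoc, z2_add_self, add_zero] at this

/-- `x` agrees with `ρ` on `T` -/
def Agree (T : Finset I) (ρ x : I → ZMod 2) : Prop := ∀ i ∈ T, x i = ρ i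

instance (T : Finset I) (ρ x : I → ZMod 2) : Decidable (Agree T ρ x) := by
  unfold Agree; infer_instance

/-- the span of the columns outside `T` -/
def W (a : I → J → ZMod 2) (T : Finset I) : Finset (J → ZMod 2) :=
  (univ.filter fun y : I → ZMod 2 => ∀ i ∈ T, y i = 0).image (app a)

lemma mem_W (a : I → J → ZMod 2) (T : Finset I) (w : J → ZMod 2) :
    w ∈ W a T ↔ ∃ y : I → ZMod 2, (∀ i ∈ T, y i = 0) ∧ app a y = w := by
  simp [W]

lemma W_add {a : I → J → ZMod 2} {T : Finset I} {w w' : J → ZMod 2} (h : w ∈ W a T)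
    (h' : w' ∈ W a T) : w + w' ∈ W a T := by
  rw [mem_W] at *
  obtain ⟨y, hy, rfl⟩ := h
  obtain ⟨y', hy', rfl⟩ := h'
  refine ⟨y + y', fun i hi => ?_, app_add a y y'⟩
  simp [hy i hi, hy' i hi]

lemma W_mono {a : I → J → ZMod 2} {T T' : Finset I} (h : T ⊆ T') : W a T' ⊆ W a T := by
  intro w hw
  rw [mem_W] at *
  obtain ⟨y, hy, rfl⟩ := hw
  exact ⟨y, fun i hi => hy i (h hi), rfl⟩

/-- the number of kernel vectors vanishing on `T` -/
def nu (a : I → J → ZMod 2) (T : Finset I) : ℕ :=
  (univ.filter fun y : I → ZMod 2 => (∀ i ∈ T, y i = 0) ∧ app a y = 0).card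

/-- the residuals `v` such that some `x` in the cube has `A x = b + v` -/
def V (a : I → J → ZMod 2) (b : J → ZMod 2) (T : Finset I) (ρ : I → ZMod 2) :
    Finset (J → ZMod 2) :=
  (univ.filter fun x : I → ZMod 2 => Agree T ρ x).image fun x => app a x + b

lemma mem_V (a : I → J → ZMod 2) (b : J → ZMod 2) (T : Finset I) (ρ : I → ZMod 2)
    (v : J → ZMod 2) : v ∈ V a b T ρ ↔ ∃ x : I → ZMod 2, Agree T ρ x ∧ app a x = b + v := by
  simp only [V, mem_image, mem_filter, mem_univ, true_and]
  constructor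
  · rintro ⟨x, hx, rfl⟩
    refine ⟨x, hx, ?_⟩
    rw [add_comm (app a x) b, ← add_assoc, z2_add_self, zero_add]
  · rintro ⟨x, hx, h⟩
    refine ⟨x, hx, ?_⟩
    rw [h, add_comm b v, add_assoc, z2_add_self, add_zero]

/-- residual sets are cosets of `W` -/
lemma V_add_iff {a : I → J → ZMod 2} {b : J → ZMod 2} {T : Finset I} {ρ : I → ZMod 2}
    {v w : J → ZMod 2} (hv : v ∈ V a b T ρ) : v + w ∈ V a b T ρ ↔ w ∈ W a T := by
  rw [mem_V] at hv
  obtain ⟨x, hx, hxv⟩ := hv
  rw [mem_V, mem_W]
  constructor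
  · rintro ⟨x', hx', h⟩
    refine ⟨x + x', fun i hi => ?_, ?_⟩
    · rw [Pi.add_apply, hx i hi, hx' i hi]
      exact CharTwo.add_self_eq_zero _
    · rw [app_add, hxv, h]
      have : b + v + (b + (v + w)) = (b + b) + (v + v) + w := by abel
      rw [this, z2_add_self, z2_add_self, zero_add, zero_add]
  · rintro ⟨y, hy, h⟩
    refine ⟨x + y, fun i hi => ?_, ?_⟩
    · rw [Pi.add_apply, hx i hi, hy i hi, add_zero]
    · rw [app_add, hxv, h, add_assoc]

/-- the points of a cube with a given residual -/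
lemma card_cube_residual (a : I → J → ZMod 2) (b : J → ZMod 2) (T : Finset I) (ρ : I → ZMod 2)
    (v : J → ZMod 2) :
    (univ.filter fun x : I → ZMod 2 => Agree T ρ x ∧ app a x = b + v).card =
      if v ∈ V a b T ρ then nu a T else 0 := by
  split_ifs with h
  · rw [mem_V] at h
    obtain ⟨x0, hx0, h0⟩ := h
    unfold nu
    symm
    refine Finset.card_bij (fun y _ => x0 + y) ?_ ?_ ?_
    · intro y hy
      simp only [mem_filter, mem_univ, true_and] at hy ⊢
      refine ⟨fun i hi => ?_, ?_⟩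
      · rw [Pi.add_apply, hx0 i hi, hy.1 i hi, add_zero]
      · rw [app_add, hy.2, add_zero, h0]
    · intro y _ y' _ h
      exact add_left_cancel h
    · intro x hx
      simp only [mem_filter, mem_univ, true_and] at hx
      refine ⟨x0 + x, ?_, ?_⟩
      · simp only [mem_filter, mem_univ, true_and]
        refine ⟨fun i hi => ?_, ?_⟩
        · rw [Pi.add_apply, hx0 i hi, hx.1 i hi]
          exact CharTwo.add_self_eq_zero _
        · rw [app_add, h0, hx.2, z2_add_self]
      · rw [← add_assoc, z2_add_self, zero_add]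
  · rw [Finset.card_eq_zero, Finset.filter_eq_empty_iff]
    rintro x - ⟨hx, hxv⟩
    exact h ((mem_V a b T ρ v).2 ⟨x, hx, hxv⟩)

/-- the sum of the unit vectors of a tuple -/
def sumE {q : ℕ} (g : Fin q → J) : J → ZMod 2 := ∑ l, Pi.single (g l) 1

lemma sumE_insertNth {c : ℕ} (l : Fin (c + 1)) (j : J) (h : Fin c → J) :
    sumE (l.insertNth j h : Fin (c + 1) → J) = Pi.single j 1 + sumE h := by
  unfold sumE
  rw [Fin.sum_univ_succAbove _ l]
  simp

end Pool.Agent.H73.Xor
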