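import Pool.Agent.H73.Xor.Params

/-!
# CNF formulas, the CNF of a linear system, and the abstract mass bound
-/

open Finset

namespace Pool.Agent.H73.Xor

/-- A clause over `n` Boolean variables: a finite set of literals, where the literal `(i, b)` is
true under the assignment `x` when `x i = b`. -/
abbrev Clause (n : ℕ) := Finset (Fin n × Bool)

/-- A CNF formula over `n` Boolean variables: a finite set of clauses. -/
abbrev CNF (n : ℕ) := Finset (Clause n)

/-- The assignment `x` satisfies the clause `C`. -/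
def Satisfies {n : ℕ} (x : Fin n → Bool) (C : Clause n) : Prop := ∃ l ∈ C, x l.1 = l.2

/-- The CNF formula has no satisfying assignment. -/
def Unsat {n : ℕ} (F : CNF n) : Prop := ∀ x : Fin n → Bool, ∃ C ∈ F, ¬ Satisfies x C

/-- Every clause has at most `k` literals. -/
def IsKCNF {n : ℕ} (k : ℕ) (F : CNF n) : Prop := ∀ C ∈ F, C.card ≤ k

section system

variable {n M : ℕ}

/-- Booleans to `ZMod 2` -/
def tz (x : Fin n → Bool) : Fin n → ZMod 2 := fun i => if x i = true then 1 else 0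

/-- `ZMod 2` to Booleans -/
def fz (x : Fin n → ZMod 2) : Fin n → Bool := fun i => decide (x i ≠ 0)

lemma tz_fz (x : Fin n → ZMod 2) : tz (fz x) = x := by
  funext i
  unfold tz fz
  rcases z2_cases (x i) with h | h <;> simp [h]

lemma fz_tz (x : Fin n → Bool) : fz (tz x) = x := by
  funext i
  unfold tz fz
  cases h : x i <;> simp [h]

/-- the support of a row -/
def row (a : Fin n → Fin M → ZMod 2) (j : Fin M) : Finset (Fin n) :=
  univ.filter fun i => a i j ≠ 0

/-- the clause excluding the values of `y` on row `j` -/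
def rowClause (a : Fin n → Fin M → ZMod 2) (j : Fin M) (y : Fin n → Bool) : Clause n :=
  (row a j).image fun i => (i, !y i)

/-- the CNF of the linear system `A x = b` -/
def sysCNF (a : Fin n → Fin M → ZMod 2) (b : Fin M → ZMod 2) : CNF n :=
  (univ.filter fun p : Fin M × (Fin n → Bool) => app a (tz p.2) p.1 ≠ b p.1).image
    fun p => rowClause a p.1 p.2

lemma sysCNF_kcnf {a : Fin n → Fin M → ZMod 2} {b : Fin M → ZMod 2} {k : ℕ}
    (h : ∀ j, (univ.filter fun i => a i j ≠ 0).card ≤ k) : IsKCNF k (sysCNF a b) := by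
  intro C hC
  rw [sysCNF, mem_image] at hC
  obtain ⟨⟨j, y⟩, -, rfl⟩ := hC
  exact card_image_le.trans (h j)

lemma not_satisfies_rowClause {a : Fin n → Fin M → ZMod 2} {j : Fin M} {x y : Fin n → Bool} :
    ¬ Satisfies x (rowClause a j y) ↔ ∀ i, a i j ≠ 0 → x i = y i := by
  unfold Satisfies rowClause row
  constructor
  · intro h i hi
    by_contra hne
    apply h
    refine ⟨(i, !y i), mem_image.2 ⟨i, mem_filter.2 ⟨mem_univ _, hi⟩, rfl⟩, ?_⟩
    simp only
    revert hne
    cases x i <;> cases y i <;> simp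
  · rintro h ⟨l, hl, hxl⟩
    rw [mem_image] at hl
    obtain ⟨i, hi, rfl⟩ := hl
    rw [mem_filter] at hi
    rw [h i hi.2] at hxl
    revert hxl
    cases y i <;> simp

lemma app_congr {a : Fin n → Fin M → ZMod 2} {j : Fin M} {x y : Fin n → Bool}
    (h : ∀ i, a i j ≠ 0 → x i = y i) : app a (tz x) j = app a (tz y) j := by
  unfold app
  refine Finset.sum_congr rfl fun i _ => ?_
  by_cases hi : a i j = 0
  · rw [hi, mul_zero, mul_zero]
  · unfold tz
    rw [h i hi]

lemma sysCNF_unsat {a : Fin n → Fin M → ZMod 2} {b : Fin M → ZMod 2}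
    (ha : ∀ i, ∑ j, a i j = 0) (hb : ∑ j, b j ≠ 0) : Unsat (sysCNF a b) := by
  intro x
  have : ∃ j, app a (tz x) j ≠ b j := by
    by_contra hcon
    push Not at hcon
    apply hb
    rw [← Finset.sum_congr rfl (fun j _ => hcon j)]
    unfold app
    rw [Finset.sum_comm]
    refine Finset.sum_eq_zero fun i _ => ?_
    rw [← Finset.mul_sum, ha i, mul_zero]
  obtain ⟨j, hj⟩ := this
  refine ⟨rowClause a j x, ?_, ?_⟩
  · rw [sysCNF, mem_image]
    exact ⟨(j, x), mem_filter.2 ⟨mem_univ _, hj⟩, rfl⟩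
  · rw [not_satisfies_rowClause]
    exact fun _ _ => rfl

/-- the row of a clause of the system -/
lemma sysCNF_row {a : Fin n → Fin M → ZMod 2} {b : Fin M → ZMod 2} {C : Clause n}
    (hC : C ∈ sysCNF a b) : ∃ j : Fin M, (∀ i, a i j ≠ 0 → ∃ e : Bool, (i, e) ∈ C) ∧
      ∀ x : Fin n → Bool, ¬ Satisfies x C → app a (tz x) j ≠ b j := by
  rw [sysCNF, mem_image] at hC
  obtain ⟨⟨j, y⟩, hp, rfl⟩ := hC
  rw [mem_filter] at hp
  refine ⟨j, fun i hi => ⟨!y i, ?_⟩, fun x hx => ?_⟩
  · exact mem_image.2 ⟨i, mem_filter.2 ⟨mem_univ _, hi⟩, rfl⟩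
  · rw [not_satisfies_rowClause] at hx
    rw [app_congr hx]
    exact hp.2

end system

variable {I J : Type*} [Fintype I] [DecidableEq I] [Fintype J] [DecidableEq J]

lemma mem_V_empty (a : I → J → ZMod 2) (b v : J → ZMod 2) :
    v ∈ V a b ∅ 0 ↔ b + v ∈ W a ∅ := by
  rw [mem_V, mem_W]
  simp [Agree]

lemma two_pow_le_nu (a : I → J → ZMod 2) :
    2 ^ Fintype.card I ≤ 2 ^ Fintype.card J * nu a ∅ := by
  classical
  have h1 : (univ : Finset (I → ZMod 2)).card = ∑ v : J → ZMod 2,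
      (univ.filter fun x : I → ZMod 2 => app a x = v).card := by
    exact Finset.card_eq_sum_card_fiberwise (fun _ _ => mem_coe.2 (mem_univ _))
  have h2 : ∀ v : J → ZMod 2, (univ.filter fun x : I → ZMod 2 => app a x = v).card ≤ nu a ∅ := by
    intro v
    have h := card_cube_residual a 0 ∅ 0 v
    have h3 : (univ.filter fun x : I → ZMod 2 => app a x = v) =
        univ.filter fun x : I → ZMod 2 => Agree ∅ 0 x ∧ app a x = 0 + v := by
      ext x; simp [Agree]
    rw [h3, h]
    split_ifs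
    · exact le_rfl
    · exact Nat.zero_le _
  have h4 : (univ : Finset (I → ZMod 2)).card ≤ 2 ^ Fintype.card J * nu a ∅ := by
    rw [h1]
    refine (Finset.sum_le_sum fun v _ => h2 v).trans ?_
    rw [Finset.sum_const, card_univ, Fintype.card_fun, ZMod.card, smul_eq_mul]
  rwa [card_univ, Fintype.card_fun, ZMod.card] at h4

lemma S_card_single {a : I → J → ZMod 2} {j0 : J} :
    (S a (Pi.single j0 1) ∅ 0).card = (univ.filter fun j' : J =>
      (Pi.single j0 1 + Pi.single j' 1 : J → ZMod 2) ∈ W a ∅).card := by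
  congr 1
  ext j
  rw [mem_S, mem_V_empty]
  simp

/-- choose the row with the largest class -/
lemma exists_max_row (a : I → J → ZMod 2) [Nonempty J] : ∃ (j0 : J) (s : ℕ), 0 < s ∧
    (S a (Pi.single j0 1) ∅ 0).card = s ∧ ∀ j : J, (univ.filter fun j' : J =>
      (Pi.single j 1 + Pi.single j' 1 : J → ZMod 2) ∈ W a ∅).card ≤ s := by
  classical
  obtain ⟨j0, -, hj0⟩ := Finset.exists_max_image (univ : Finset J)
    (fun j => (univ.filter fun j' : J =>
      (Pi.single j 1 + Pi.single j' 1 : J → ZMod 2) ∈ W a ∅).card) univ_nonempty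
  refine ⟨j0, (S a (Pi.single j0 1) ∅ 0).card, ?_, rfl, ?_⟩
  · rw [card_pos]
    refine ⟨j0, ?_⟩
    rw [mem_S, mem_V_empty, z2_add_self, mem_W]
    exact ⟨0, by simp, app_zero a⟩
  · intro j
    rw [S_card_single]
    exact hj0 j (mem_univ _)

/-- half of the mass lies outside the bad cubes -/
theorem mass_outside {ι : Type*} [Fintype ι] [DecidableEq ι] {a : I → J → ZMod 2} {j0 : J}
    {c L D K s r k : ℕ}
    (hgood : Good a c K D r k)
    (hs0 : (S a (Pi.single j0 1) ∅ 0).card = s)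
    (hs : ∀ j : J, (univ.filter fun j' : J =>
      (Pi.single j 1 + Pi.single j' 1 : J → ZMod 2) ∈ W a ∅).card ≤ s)
    (hP5 : 2 * K * (c.choose L * D ^ L) ≤ (Fintype.card J) ^ L)
    (hLc : L ≤ c) (hq : 4 * K * L ≤ c + 1)
    (T : ι → Finset I) (ρ : ι → I → ZMod 2) (w : ι → ℝ) (hw0 : ∀ t, 0 ≤ w t)
    (hw : ∀ x : I → ZMod 2, ∑ t, (if Agree (T t) (ρ t) x then w t else 0) = 1)
    (B : Finset ι)
    (hB : ∀ t ∈ B, r ≤ (T t)ᶜ.card ∧ (S a (Pi.single j0 1) (T t) (ρ t)).card ≤ D) :
    (nu a ∅ : ℝ) * s ≤ 2 * ∑ t ∈ Bᶜ,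
      w t * (nu a (T t) : ℝ) * ((S a (Pi.single j0 1) (T t) (ρ t)).card : ℝ) := by
  have h1 := lemmaG (j0 := j0) hs hgood.dense hP5 hLc hq T ρ w hw0 hw B hB
  have h2 := sum_mass_card a (Pi.single j0 1) T ρ w hw (fun j : J => (Pi.single j 1 : J → ZMod 2))
  have h3 : ∀ t, (univ.filter fun j : J => (Pi.single j 1 : J → ZMod 2) ∈
      V a (Pi.single j0 1) (T t) (ρ t)) = S a (Pi.single j0 1) (T t) (ρ t) := fun t => rfl
  have h4 : (univ.filter fun j : J => (Pi.single j 1 : J → ZMod 2) ∈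
      V a (Pi.single j0 1) ∅ 0) = S a (Pi.single j0 1) ∅ 0 := rfl
  simp only [h3, h4, hs0] at h2
  rw [← Finset.sum_add_sum_compl B] at h2
  linarith

end Pool.Agent.H73.Xor
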