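import Pool.Agent.H73.Xor.LemmaG

/-!
# Counting lemmas for the existence of good systems
-/

open Finset

namespace Pool.Agent.H73.Xor

section resample

variable {ι Q : Type*} [Fintype ι] [DecidableEq ι] [Fintype Q] [DecidableEq Q] [Nonempty Q]

lemma resample_step (K : ℕ) (R : (ι → Q) → Prop) [DecidablePred R] (B : (ι → Q) → Finset Q)
    (i0 : ι) (hR : ∀ f q, R (Function.update f i0 q) ↔ R f)
    (hB : ∀ f q, B (Function.update f i0 q) = B f)
    (hK : ∀ f, R f → K * (B f).card ≤ Fintype.card Q) :
    K * (univ.filter fun f => R f ∧ f i0 ∈ B f).card ≤ (univ.filter fun f => R f).card := by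
  classical
  set P1 := (univ : Finset ((ι → Q) × Q)).filter fun p => R p.1 ∧ p.2 ∈ B p.1 with hP1
  set P2 := (univ : Finset ((ι → Q) × Q)).filter fun p => R p.1 ∧ p.1 i0 ∈ B p.1 with hP2
  have h12 : P1.card = P2.card := by
    refine Finset.card_bij' (fun p _ => (Function.update p.1 i0 p.2, p.1 i0))
      (fun p _ => (Function.update p.1 i0 p.2, p.1 i0)) ?_ ?_ ?_ ?_
    · rintro ⟨f, q⟩ hp
      simp only [hP1, hP2, mem_filter, mem_univ, true_and] at hp ⊢
      rw [hR, hB, Function.update_self]
      exact hp
    · rintro ⟨f, q⟩ hp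
      simp only [hP1, hP2, mem_filter, mem_univ, true_and] at hp ⊢
      rw [hR, hB]
      exact hp
    · rintro ⟨f, q⟩ _
      simp
    · rintro ⟨f, q⟩ _
      simp
  have h1 : P1.card = ∑ f ∈ univ.filter fun f => R f, (B f).card := by
    have : P1 = (univ.filter fun f => R f).biUnion fun f => (B f).image fun q => (f, q) := by
      ext ⟨f, q⟩
      simp [hP1]
    rw [this, card_biUnion]
    · refine Finset.sum_congr rfl fun f _ => ?_
      rw [card_image_of_injective]
      intro q q' h
      exact (Prod.mk.inj h).2
    · intro f _ f' _ hff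
      rw [Function.onFun, Finset.disjoint_left]
      rintro ⟨f1, q1⟩ h h'
      simp only [mem_image, Prod.mk.injEq] at h h'
      obtain ⟨_, _, h1, _⟩ := h
      obtain ⟨_, _, h2, _⟩ := h'
      exact hff (h1.trans h2.symm)
  have h2 : P2.card = (univ.filter fun f => R f ∧ f i0 ∈ B f).card * Fintype.card Q := by
    have : P2 = (univ.filter fun f => R f ∧ f i0 ∈ B f) ×ˢ (univ : Finset Q) := by
      ext ⟨f, q⟩
      simp [hP2]
    rw [this, card_product, card_univ]
  have h3 : K * P1.card ≤ (univ.filter fun f => R f).card * Fintype.card Q := by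
    rw [h1, Finset.mul_sum, ← smul_eq_mul, ← Finset.sum_const]
    exact Finset.sum_le_sum fun f hf => hK f (mem_filter.1 hf).2
  have hQ : 0 < Fintype.card Q := Fintype.card_pos
  refine Nat.le_of_mul_le_mul_right ?_ hQ
  calc K * (univ.filter fun f => R f ∧ f i0 ∈ B f).card * Fintype.card Q = K * P2.card := by
        rw [h2, mul_assoc]
    _ = K * P1.card := by rw [h12]
    _ ≤ _ := h3

lemma resample (K : ℕ) (R : (ι → Q) → Prop) [DecidablePred R] (B : (ι → Q) → Finset Q)
    (G : Finset ι) (hR : ∀ i ∈ G, ∀ f q, R (Function.update f i q) ↔ R f)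
    (hB : ∀ i ∈ G, ∀ f q, B (Function.update f i q) = B f)
    (hK : ∀ f, R f → K * (B f).card ≤ Fintype.card Q) :
    K ^ G.card * (univ.filter fun f => R f ∧ ∀ i ∈ G, f i ∈ B f).card ≤
      (univ.filter fun f => R f).card := by
  classical
  induction G using Finset.induction_on with
  | empty => simp
  | insert i0 G' hi0 ih =>
    have ih' := ih (fun i hi => hR i (mem_insert_of_mem hi)) (fun i hi => hB i (mem_insert_of_mem hi))
    have hstep := resample_step K (fun f => R f ∧ ∀ i ∈ G', f i ∈ B f) B i0 ?_
      (hB i0 (mem_insert_self _ _)) (fun f hf => hK f hf.1)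
    · rw [card_insert_of_notMem hi0, pow_succ, mul_assoc]
      have heq : (univ.filter fun f => R f ∧ ∀ i ∈ insert i0 G', f i ∈ B f) =
          univ.filter fun f => (R f ∧ ∀ i ∈ G', f i ∈ B f) ∧ f i0 ∈ B f := by
        ext f
        simp only [mem_filter, mem_univ, true_and, forall_mem_insert]
        tauto
      rw [heq]
      exact (Nat.mul_le_mul_left _ hstep).trans ih'
    · intro f q
      rw [hR i0 (mem_insert_self _ _), hB i0 (mem_insert_self _ _)]
      refine and_congr_right fun _ => forall_congr' fun i => forall_congr' fun hi => ?_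
      rw [Function.update_of_ne]
      rintro rfl
      exact hi0 hi

end resample

variable {I J : Type*} [Fintype I] [DecidableEq I] [Fintype J] [DecidableEq J]

lemma card_vanish (T : Finset I) :
    (univ.filter fun y : I → ZMod 2 => ∀ i ∈ T, y i = 0).card = 2 ^ Tᶜ.card := by
  have : (univ.filter fun y : I → ZMod 2 => ∀ i ∈ T, y i = 0) =
      Fintype.piFinset fun i => if i ∈ T then {0} else univ := by
    ext y
    simp only [mem_filter, mem_univ, true_and, Fintype.mem_piFinset]
    refine forall_congr' fun i => ?_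
    by_cases h : i ∈ T <;> simp [h]
  rw [this, Fintype.card_piFinset]
  have h2 : ∀ i : I, (if i ∈ T then ({0} : Finset (ZMod 2)) else univ).card =
      if i ∈ T then 1 else 2 := by
    intro i; split_ifs <;> simp [ZMod.card]
  rw [Finset.prod_congr rfl (fun i _ => h2 i), Finset.prod_ite, Finset.prod_const_one, one_mul,
    Finset.prod_const]
  congr 2
  ext i; simp

lemma nu_le (a : I → J → ZMod 2) (T : Finset I) : nu a T ≤ 2 ^ Tᶜ.card := by
  rw [← card_vanish]
  refine card_le_card fun y hy => ?_
  simp only [mem_filter, mem_univ, true_and] at hy ⊢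
  exact hy.1

lemma z2_cases (x : ZMod 2) : x = 0 ∨ x = 1 := by
  fin_cases x
  · exact Or.inl rfl
  · exact Or.inr rfl

lemma z2_ne_zero {x : ZMod 2} (h : x ≠ 0) : x = 1 := (z2_cases x).resolve_left h

/-- a spanning set of columns contains one of size at most the number of rows -/
lemma exists_spanning_subset (a : I → J → ZMod 2) (U : Finset I) :
    ∃ U2 ⊆ U, U2.card ≤ Fintype.card J ∧ W a U2ᶜ = W a Uᶜ := by
  classical
  set P := U.powerset.filter fun U' => W a U'ᶜ = W a Uᶜ with hP
  have hne : P.Nonempty := ⟨U, by simp [hP]⟩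
  obtain ⟨U2, hU2, hmin⟩ := Finset.exists_min_image P Finset.card hne
  rw [hP, mem_filter, mem_powerset] at hU2
  refine ⟨U2, hU2.1, ?_, hU2.2⟩
  have hinj : Set.InjOn (app a) (univ.filter fun y : I → ZMod 2 => ∀ i ∈ U2ᶜ, y i = 0) := by
    intro y hy y' hy' h
    simp only [coe_filter, mem_univ, true_and, Set.mem_setOf_eq] at hy hy'
    by_contra hne'
    have hz : y + y' ≠ 0 := fun h0 => hne' (z2_eq_of_add_eq_zero h0)
    obtain ⟨i1, hi1⟩ := Function.ne_iff.1 hz
    have hi1U : i1 ∈ U2 := by
      by_contra hc
      apply hi1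
      rw [Pi.add_apply, hy i1 (mem_compl.2 hc), hy' i1 (mem_compl.2 hc), add_zero, Pi.zero_apply]
    have happ : app a (y + y') = 0 := by rw [app_add, h, z2_add_self]
    have hnew : W a (U2.erase i1)ᶜ = W a Uᶜ := by
      rw [← hU2.2]
      refine subset_antisymm (W_mono ?_) ?_
      · exact compl_subset_compl.2 (erase_subset _ _)
      · intro w hw
        rw [mem_W] at hw ⊢
        obtain ⟨v, hv, rfl⟩ := hw
        rcases z2_cases (v i1) with h0 | h1
        · refine ⟨v, fun i hi => ?_, rfl⟩
          by_cases hii : i = i1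
          · rw [hii, h0]
          · refine hv i ?_
            rw [mem_compl, mem_erase, not_and] at hi
            exact mem_compl.2 (hi hii)
        · refine ⟨v + (y + y'), fun i hi => ?_, ?_⟩
          · by_cases hii : i = i1
            · rw [hii, Pi.add_apply, h1, z2_ne_zero hi1]
              exact CharTwo.add_self_eq_zero _
            · have : i ∈ U2ᶜ := by
                rw [mem_compl, mem_erase, not_and] at hi
                exact mem_compl.2 (hi hii)
              rw [Pi.add_apply, hv i this, Pi.add_apply, hy i this, hy' i this, add_zero, add_zero]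
          · rw [app_add, happ, add_zero]
    have hmem : U2.erase i1 ∈ P := by
      rw [hP, mem_filter, mem_powerset]
      exact ⟨(erase_subset _ _).trans hU2.1, hnew⟩
    have := hmin _ hmem
    rw [card_erase_of_mem hi1U] at this
    have hpos : 0 < U2.card := card_pos.2 ⟨i1, hi1U⟩
    omega
  have hcard : (univ.filter fun y : I → ZMod 2 => ∀ i ∈ U2ᶜ, y i = 0).card ≤
      (univ : Finset (J → ZMod 2)).card :=
    Finset.card_le_card_of_injOn (app a) (fun _ _ => mem_coe.2 (mem_univ _)) hinj
  rw [card_vanish, compl_compl, card_univ, Fintype.card_fun, ZMod.card] at hcard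
  exact (Nat.pow_le_pow_iff_right (by norm_num)).1 hcard

/-- the columns of a family of tuples -/
def cols {c : ℕ} (f : I → Fin c → J) : I → J → ZMod 2 := fun i => sumE (f i)

lemma W_cols_update {c : ℕ} (f : I → Fin c → J) (i0 : I) (q : Fin c → J) (T : Finset I)
    (h : i0 ∈ T) : W (cols (Function.update f i0 q)) T = W (cols f) T := by
  unfold W
  refine Finset.image_congr fun y hy => ?_
  simp only [coe_filter, mem_univ, true_and, Set.mem_setOf_eq] at hy
  funext j
  unfold app
  refine Finset.sum_congr rfl fun i _ => ?_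
  by_cases hi : i = i0
  · rw [hi, hy i0 h, zero_mul, zero_mul]
  · unfold cols
    rw [Function.update_of_ne hi]

/-- families in which some large set of columns spans too little -/
def bad1 (I J : Type*) [Fintype I] [DecidableEq I] [Fintype J] [DecidableEq J] (c K r : ℕ) :
    Finset (I → Fin c → J) :=
  univ.filter fun f => ∃ U : Finset I, r ≤ U.card ∧
    K * (univ.filter fun h : Fin c → J => sumE h ∈ W (cols f) Uᶜ).card < (Fintype.card J) ^ c

lemma card_bad1 (c K r : ℕ) (hr : Fintype.card J ≤ r) [Nonempty J] :
    K ^ (r - Fintype.card J) * (bad1 I J c K r).card ≤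
      (Fintype.card I).choose (Fintype.card J) * (Fintype.card I).choose (r - Fintype.card J) *
        ((Fintype.card J) ^ c) ^ Fintype.card I := by
  classical
  set M := Fintype.card J with hM
  set E : Finset I → Finset I → Finset (I → Fin c → J) := fun U2 G =>
    if Disjoint U2 G then
      univ.filter fun f => (K * (univ.filter fun h : Fin c → J => sumE h ∈ W (cols f) U2ᶜ).card
        ≤ M ^ c) ∧ ∀ i ∈ G, f i ∈ univ.filter fun h : Fin c → J => sumE h ∈ W (cols f) U2ᶜ
    else ∅ with hE
  have hsub : bad1 I J c K r ⊆ (univ.powersetCard M).biUnion fun U2 =>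
      (univ.powersetCard (r - M)).biUnion fun G => E U2 G := by
    intro f hf
    simp only [bad1, mem_filter, mem_univ, true_and] at hf
    obtain ⟨U', hU', hlt'⟩ := hf
    obtain ⟨U, hUU', hUc⟩ := Finset.exists_subset_card_eq hU'
    have hlt : K * (univ.filter fun h : Fin c → J => sumE h ∈ W (cols f) Uᶜ).card < M ^ c := by
      refine lt_of_le_of_lt (Nat.mul_le_mul_left _ (card_le_card ?_)) hlt'
      intro h hh
      simp only [mem_filter, mem_univ, true_and] at hh ⊢
      exact W_mono (compl_subset_compl.2 hUU') hh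
    obtain ⟨U1, hU1U, hU1c, hU1W⟩ := exists_spanning_subset (cols f) U
    obtain ⟨U2, hU12, hU2U, hU2c⟩ := Finset.exists_subsuperset_card_eq hU1U hU1c (hr.trans hUc.ge)
    have hW2 : W (cols f) U2ᶜ = W (cols f) Uᶜ := by
      refine subset_antisymm (W_mono (compl_subset_compl.2 hU2U)) ?_
      rw [← hU1W]
      exact W_mono (compl_subset_compl.2 hU12)
    rw [mem_biUnion]
    refine ⟨U2, mem_powersetCard.2 ⟨subset_univ _, hU2c⟩, ?_⟩
    rw [mem_biUnion]
    refine ⟨U \ U2, mem_powersetCard.2 ⟨subset_univ _, ?_⟩, ?_⟩
    · rw [card_sdiff_of_subset hU2U, hUc, hU2c]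
    · simp only [hE]
      rw [if_pos disjoint_sdiff, mem_filter]
      refine ⟨mem_univ _, ?_, ?_⟩
      · rw [hW2]; exact hlt.le
      · intro i hi
        rw [mem_filter, hW2]
        refine ⟨mem_univ _, ?_⟩
        rw [mem_W]
        refine ⟨Pi.single i 1, fun i' hi' => ?_, ?_⟩
        · rw [Pi.single_apply, if_neg]
          rintro rfl
          exact (mem_compl.1 hi') (mem_sdiff.1 hi).1
        · funext j
          simp only [app, Pi.single_apply, ite_mul, one_mul, zero_mul, sum_ite_eq', mem_univ,
            if_true, cols]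
  have hEcard : ∀ U2 G : Finset I, G.card = r - M →
      K ^ (r - M) * (E U2 G).card ≤ (M ^ c) ^ Fintype.card I := by
    intro U2 G hG
    simp only [hE]
    split_ifs with hd
    · have hres := resample (ι := I) (Q := Fin c → J) K
        (fun f => K * (univ.filter fun h : Fin c → J => sumE h ∈ W (cols f) U2ᶜ).card ≤ M ^ c)
        (fun f => univ.filter fun h : Fin c → J => sumE h ∈ W (cols f) U2ᶜ) G ?_ ?_ ?_
      · rw [hG] at hres
        refine hres.trans ((card_le_univ _).trans ?_)
        rw [Fintype.card_fun, Fintype.card_fun, Fintype.card_fin]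
      · intro i hi f q
        rw [W_cols_update f i q _ (mem_compl.2 fun h => (disjoint_left.1 hd h hi))]
      · intro i hi f q
        rw [W_cols_update f i q _ (mem_compl.2 fun h => (disjoint_left.1 hd h hi))]
      · intro f hf
        rw [Fintype.card_fun, Fintype.card_fin]
        exact hf
    · simp
  calc K ^ (r - M) * (bad1 I J c K r).card
      ≤ K ^ (r - M) * ∑ U2 ∈ univ.powersetCard M, ∑ G ∈ univ.powersetCard (r - M),
          (E U2 G).card := by
        refine Nat.mul_le_mul_left _ ((card_le_card hsub).trans (card_biUnion_le.trans ?_))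
        exact Finset.sum_le_sum fun U2 _ => card_biUnion_le
    _ = ∑ U2 ∈ univ.powersetCard M, ∑ G ∈ univ.powersetCard (r - M),
          K ^ (r - M) * (E U2 G).card := by
        rw [Finset.mul_sum]
        exact Finset.sum_congr rfl fun U2 _ => Finset.mul_sum _ _ _
    _ ≤ ∑ U2 ∈ (univ : Finset I).powersetCard M, ∑ G ∈ (univ : Finset I).powersetCard (r - M),
          (M ^ c) ^ Fintype.card I := by
        refine Finset.sum_le_sum fun U2 _ => Finset.sum_le_sum fun G hG => ?_
        exact hEcard U2 G (mem_powersetCard.1 hG).2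
    _ = _ := by
        simp only [Finset.sum_const, card_powersetCard, smul_eq_mul, card_univ]
        ring

end Pool.Agent.H73.Xor
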