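import Pool.Agent.H73.Xor.Count

/-!
# Counting lemmas, second part
-/

open Finset

namespace Pool.Agent.H73.Xor

variable {I J : Type*} [Fintype I] [DecidableEq I] [Fintype J] [DecidableEq J]

lemma sumE_apply {c : ℕ} (h : Fin c → J) (j : J) :
    sumE h j = ∑ l, if h l = j then (1 : ZMod 2) else 0 := by
  unfold sumE
  rw [Finset.sum_apply]
  refine Finset.sum_congr rfl fun l _ => ?_
  rw [Pi.single_apply]
  simp only [eq_comm]

lemma exists_of_sumE_ne_zero {c : ℕ} {h : Fin c → J} {j : J} (hj : sumE h j ≠ 0) :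
    ∃ l, h l = j := by
  rw [sumE_apply] at hj
  obtain ⟨l, _, hl⟩ := Finset.exists_ne_zero_of_sum_ne_zero hj
  refine ⟨l, ?_⟩
  by_contra hne
  exact hl (if_neg hne)

lemma sum_sumE {c : ℕ} (h : Fin c → J) : ∑ j, sumE h j = (c : ZMod 2) := by
  simp only [sumE_apply]
  rw [Finset.sum_comm]
  simp

/-- tuples vanishing on a set -/
def van (c : ℕ) (S : Finset J) : Finset (Fin c → J) :=
  univ.filter fun h => ∀ j ∈ S, sumE h j = 0

lemma card_eq_coord {c : ℕ} {l l' : Fin c} (hll : l ≠ l') :
    (univ.filter fun h : Fin c → J => h l = h l').card ≤ (Fintype.card J) ^ (c - 1) := by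
  classical
  have h1 : Fintype.card ({m : Fin c // m ≠ l} → J) = (Fintype.card J) ^ (c - 1) := by
    rw [Fintype.card_fun]
    congr 1
    rw [Fintype.card_subtype_compl, Fintype.card_fin, Fintype.card_subtype_eq]
  rw [← h1, ← card_univ]
  refine Finset.card_le_card_of_injOn (fun h m => h m.1) (fun _ _ => mem_coe.2 (mem_univ _)) ?_
  intro h hh h' hh' heq
  simp only [coe_filter, mem_univ, true_and, Set.mem_setOf_eq] at hh hh'
  have hm : ∀ m, m ≠ l → h m = h' m := fun m hm => congrFun heq ⟨m, hm⟩
  funext m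
  by_cases hml : m = l
  · rw [hml, hh, hh']
    exact hm l' (Ne.symm hll)
  · exact hm m hml

lemma card_van_le (c : ℕ) (S : Finset J) :
    (van c S).card ≤ (Fintype.card J - S.card) ^ c + c ^ 2 * (Fintype.card J) ^ (c - 1) := by
  classical
  have hsub : van c S ⊆ (Fintype.piFinset fun _ : Fin c => Sᶜ) ∪
      ((univ : Finset (Fin c)) ×ˢ (univ : Finset (Fin c))).biUnion fun p =>
        if p.1 ≠ p.2 then univ.filter fun h : Fin c → J => h p.1 = h p.2 else ∅ := by
    intro h hh
    simp only [van, mem_filter, mem_univ, true_and] at hh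
    rw [mem_union]
    by_cases hav : ∀ l, h l ∉ S
    · left
      rw [Fintype.mem_piFinset]
      exact fun l => mem_compl.2 (hav l)
    · right
      push Not at hav
      obtain ⟨l, hl⟩ := hav
      have h0 := hh _ hl
      rw [sumE_apply] at h0
      have : ∃ l', l' ≠ l ∧ h l' = h l := by
        by_contra hcon
        push Not at hcon
        rw [Finset.sum_eq_single l] at h0
        · simp at h0
        · intro l' _ hl'
          exact if_neg (hcon l' hl')
        · intro h; exact absurd (mem_univ _) h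
      obtain ⟨l', hne, heq⟩ := this
      rw [mem_biUnion]
      refine ⟨(l', l), mem_product.2 ⟨mem_univ _, mem_univ _⟩, ?_⟩
      simp only
      rw [if_pos hne, mem_filter]
      exact ⟨mem_univ _, heq⟩
  refine (card_le_card hsub).trans ((card_union_le _ _).trans (Nat.add_le_add ?_ ?_))
  · rw [Fintype.card_piFinset]
    simp [card_compl]
  · refine card_biUnion_le.trans ?_
    calc ∑ p ∈ (univ : Finset (Fin c)) ×ˢ (univ : Finset (Fin c)),
        (if p.1 ≠ p.2 then univ.filter fun h : Fin c → J => h p.1 = h p.2 else ∅).card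
        ≤ ∑ p ∈ (univ : Finset (Fin c)) ×ˢ (univ : Finset (Fin c)),
          (Fintype.card J) ^ (c - 1) := by
          refine Finset.sum_le_sum fun p _ => ?_
          split_ifs with hp
          · exact card_eq_coord hp
          · simp
      _ = c ^ 2 * (Fintype.card J) ^ (c - 1) := by
          rw [Finset.sum_const, card_product, card_univ, Fintype.card_fin, smul_eq_mul, sq]

/-- families with many columns vanishing on a common large set of rows -/
def bad4 (I J : Type*) [Fintype I] [DecidableEq I] [Fintype J] [DecidableEq J] (c D r : ℕ) :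
    Finset (I → Fin c → J) :=
  univ.filter fun f => ∃ F : Finset I, r ≤ F.card ∧ ∃ S : Finset J, D < S.card ∧
    ∀ i ∈ F, ∀ j ∈ S, cols f i j = 0

lemma card_bad4 (c K D r : ℕ) [Nonempty J]
    (hK : ∀ S : Finset J, D < S.card → K * (van c S).card ≤ (Fintype.card J) ^ c) :
    K ^ r * (bad4 I J c D r).card ≤
      (Fintype.card I).choose r * 2 ^ Fintype.card J * ((Fintype.card J) ^ c) ^ Fintype.card I := by
  classical
  set M := Fintype.card J with hM
  set E : Finset I → Finset J → Finset (I → Fin c → J) := fun F S =>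
    univ.filter fun f => True ∧ ∀ i ∈ F, f i ∈ van c S with hE
  have hsub : bad4 I J c D r ⊆ (univ.powersetCard r).biUnion fun F =>
      (univ.powerset.filter fun S : Finset J => D < S.card).biUnion fun S => E F S := by
    intro f hf
    simp only [bad4, mem_filter, mem_univ, true_and] at hf
    obtain ⟨F', hF', S, hS, hFS⟩ := hf
    obtain ⟨F, hFF', hFc⟩ := Finset.exists_subset_card_eq hF'
    rw [mem_biUnion]
    refine ⟨F, mem_powersetCard.2 ⟨subset_univ _, hFc⟩, ?_⟩
    rw [mem_biUnion]
    refine ⟨S, mem_filter.2 ⟨mem_powerset.2 (subset_univ _), hS⟩, ?_⟩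
    simp only [hE, mem_filter, mem_univ, true_and, van]
    exact fun i hi j hj => hFS i (hFF' hi) j hj
  have hEcard : ∀ (F : Finset I) (S : Finset J), F.card = r → D < S.card →
      K ^ r * (E F S).card ≤ (M ^ c) ^ Fintype.card I := by
    intro F S hF hS
    have hres := resample (ι := I) (Q := Fin c → J) K (fun _ => True) (fun _ => van c S) F
      (fun _ _ _ _ => Iff.rfl) (fun _ _ _ _ => rfl) ?_
    · rw [hF] at hres
      refine hres.trans ((card_le_univ _).trans ?_)
      rw [Fintype.card_fun, Fintype.card_fun, Fintype.card_fin]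
    · intro f _
      rw [Fintype.card_fun, Fintype.card_fin]
      exact hK S hS
  calc K ^ r * (bad4 I J c D r).card
      ≤ K ^ r * ∑ F ∈ univ.powersetCard r, ∑ S ∈ univ.powerset.filter fun S : Finset J => D < S.card,
          (E F S).card := by
        refine Nat.mul_le_mul_left _ ((card_le_card hsub).trans (card_biUnion_le.trans ?_))
        exact Finset.sum_le_sum fun F _ => card_biUnion_le
    _ = ∑ F ∈ univ.powersetCard r, ∑ S ∈ univ.powerset.filter fun S : Finset J => D < S.card,
          K ^ r * (E F S).card := by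
        rw [Finset.mul_sum]
        exact Finset.sum_congr rfl fun U2 _ => Finset.mul_sum _ _ _
    _ ≤ ∑ F ∈ (univ : Finset I).powersetCard r,
          ∑ S ∈ univ.powerset.filter fun S : Finset J => D < S.card,
          (M ^ c) ^ Fintype.card I := by
        refine Finset.sum_le_sum fun F hF => Finset.sum_le_sum fun S hS => ?_
        exact hEcard F S (mem_powersetCard.1 hF).2 (mem_filter.1 hS).2
    _ ≤ ∑ F ∈ (univ : Finset I).powersetCard r,
          ∑ S ∈ (univ : Finset J).powerset, (M ^ c) ^ Fintype.card I := by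
        refine Finset.sum_le_sum fun F hF => ?_
        exact Finset.sum_le_sum_of_subset (filter_subset _ _)
    _ = _ := by
        simp only [Finset.sum_const, card_powersetCard, smul_eq_mul, card_univ, card_powerset]
        ring

/-- the number of incidences of a row -/
def inc {c : ℕ} (f : I → Fin c → J) (j : J) : ℕ :=
  (univ.filter fun p : I × Fin c => f p.1 p.2 = j).card

/-- columns touching an overloaded row -/
def heavy {c : ℕ} (k : ℕ) (f : I → Fin c → J) : Finset I :=
  univ.filter fun i => ∃ l, k < inc f (f i l)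

lemma card_heavy_le {c : ℕ} (k : ℕ) (f : I → Fin c → J) :
    2 ^ k * (heavy k f).card ≤ ∑ j, 4 ^ inc f j := by
  classical
  have hsub : heavy k f ⊆ (univ.filter fun j => k < inc f j).biUnion fun j =>
      univ.filter fun i => ∃ l, f i l = j := by
    intro i hi
    simp only [heavy, mem_filter, mem_univ, true_and] at hi
    obtain ⟨l, hl⟩ := hi
    rw [mem_biUnion]
    exact ⟨f i l, mem_filter.2 ⟨mem_univ _, hl⟩, mem_filter.2 ⟨mem_univ _, l, rfl⟩⟩
  have hinc : ∀ j, (univ.filter fun i => ∃ l, f i l = j).card ≤ inc f j := by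
    intro j
    unfold inc
    have : (univ.filter fun i => ∃ l, f i l = j) ⊆
        (univ.filter fun p : I × Fin c => f p.1 p.2 = j).image Prod.fst := by
      intro i hi
      simp only [mem_filter, mem_univ, true_and, mem_image] at hi ⊢
      obtain ⟨l, hl⟩ := hi
      exact ⟨(i, l), hl, rfl⟩
    exact (card_le_card this).trans card_image_le
  have hx : ∀ X : ℕ, k < X → 2 ^ k * X ≤ 4 ^ X := by
    intro X hX
    calc 2 ^ k * X ≤ 2 ^ X * 2 ^ X :=
          Nat.mul_le_mul (Nat.pow_le_pow_right (by norm_num) hX.le) Nat.lt_two_pow_self.le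
      _ = 4 ^ X := by rw [← mul_pow]; norm_num
  calc 2 ^ k * (heavy k f).card
      ≤ 2 ^ k * ∑ j ∈ univ.filter fun j => k < inc f j, inc f j := by
        refine Nat.mul_le_mul_left _ ((card_le_card hsub).trans (card_biUnion_le.trans ?_))
        exact Finset.sum_le_sum fun j _ => hinc j
    _ = ∑ j ∈ univ.filter fun j => k < inc f j, 2 ^ k * inc f j := by rw [Finset.mul_sum]
    _ ≤ ∑ j ∈ univ.filter fun j => k < inc f j, 4 ^ inc f j :=
        Finset.sum_le_sum fun j hj => hx _ (mem_filter.1 hj).2
    _ ≤ ∑ j, 4 ^ inc f j := Finset.sum_le_sum_of_subset (filter_subset _ _)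

lemma sum_four_pow_inc (c : ℕ) (j : J) :
    ∑ f : I → Fin c → J, 4 ^ inc f j = (Fintype.card J + 3) ^ (Fintype.card I * c) := by
  classical
  have h1 : ∀ f : I → Fin c → J, 4 ^ inc f j = ∏ i, ∏ l, if f i l = j then 4 else 1 := by
    intro f
    unfold inc
    rw [← Fintype.prod_prod_type' (f := fun i l => if f i l = j then 4 else 1),
      Finset.prod_ite, Finset.prod_const, Finset.prod_const_one, mul_one]
  rw [Finset.sum_congr rfl (fun f _ => h1 f)]
  have h2 := (Finset.prod_univ_sum (ι := I) (κ := fun _ => Fin c → J) (fun _ => univ)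
    (fun _ q => ∏ l, if q l = j then 4 else 1)).symm
  rw [Fintype.piFinset_univ] at h2
  rw [h2]
  have h3 := (Finset.prod_univ_sum (ι := Fin c) (κ := fun _ => J) (fun _ => univ)
    (fun _ q => if q = j then 4 else 1)).symm
  rw [Fintype.piFinset_univ] at h3
  rw [h3]
  have h4 : ∑ q : J, (if q = j then 4 else 1) = Fintype.card J + 3 := by
    have : ∀ q : J, (if q = j then 4 else 1) = 1 + (if q = j then 3 else 0) := by
      intro q; split_ifs <;> rfl
    rw [Finset.sum_congr rfl (fun q _ => this q), Finset.sum_add_distrib]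
    simp
  rw [h4]
  simp only [Finset.prod_const, card_univ, Fintype.card_fin]
  rw [← pow_mul, mul_comm]

lemma sum_card_heavy (c k : ℕ) :
    2 ^ k * ∑ f : I → Fin c → J, (heavy k f).card ≤
      Fintype.card J * (Fintype.card J + 3) ^ (Fintype.card I * c) := by
  classical
  calc 2 ^ k * ∑ f : I → Fin c → J, (heavy k f).card
      = ∑ f : I → Fin c → J, 2 ^ k * (heavy k f).card := by rw [Finset.mul_sum]
    _ ≤ ∑ f : I → Fin c → J, ∑ j, 4 ^ inc f j := Finset.sum_le_sum fun f _ => card_heavy_le k f
    _ = ∑ j, ∑ f : I → Fin c → J, 4 ^ inc f j := Finset.sum_comm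
    _ = _ := by
        rw [Finset.sum_congr rfl (fun j _ => sum_four_pow_inc c j), Finset.sum_const, card_univ,
          smul_eq_mul]

/-- families with many columns touching an overloaded row -/
def bad3 (I J : Type*) [Fintype I] [DecidableEq I] [Fintype J] [DecidableEq J] (c k n : ℕ) :
    Finset (I → Fin c → J) :=
  univ.filter fun f => n < (heavy k f).card

lemma card_bad3 (c k n : ℕ) :
    2 ^ k * ((n + 1) * (bad3 I J c k n).card) ≤
      Fintype.card J * (Fintype.card J + 3) ^ (Fintype.card I * c) := by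
  classical
  refine le_trans (Nat.mul_le_mul_left _ ?_) (sum_card_heavy c k)
  calc (n + 1) * (bad3 I J c k n).card = ∑ f ∈ bad3 I J c k n, (n + 1) := by
        rw [Finset.sum_const, smul_eq_mul, mul_comm]
    _ ≤ ∑ f ∈ bad3 I J c k n, (heavy k f).card :=
        Finset.sum_le_sum fun f hf => (mem_filter.1 hf).2
    _ ≤ ∑ f : I → Fin c → J, (heavy k f).card := Finset.sum_le_sum_of_subset (subset_univ _)

/-- the properties of the linear system used in the lower bounds -/
structure Good {I J : Type*} [Fintype I] [DecidableEq I] [Fintype J] [DecidableEq J]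
    (a : I → J → ZMod 2) (c K D r k : ℕ) : Prop where
  even : ∀ i, ∑ j, a i j = 0
  rows : ∀ j, (univ.filter fun i => a i j ≠ 0).card ≤ k
  dense : ∀ T : Finset I, r ≤ Tᶜ.card →
    (Fintype.card J) ^ c ≤ K * (univ.filter fun h : Fin c → J => sumE h ∈ W a T).card
  hit : ∀ F : Finset I, r ≤ F.card → ∀ S : Finset J, D < S.card → ∃ i ∈ F, ∃ j ∈ S, a i j ≠ 0

/-- restricting to a subset of the columns -/
lemma W_comp {I' : Type*} [Fintype I'] [DecidableEq I'] (a : I → J → ZMod 2) (φ : I' ↪ I)
    (T : Finset I') : W a (Tᶜ.map φ)ᶜ ⊆ W (fun i => a (φ i)) T := by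
  classical
  intro w hw
  rw [mem_W] at hw ⊢
  obtain ⟨y, hy, rfl⟩ := hw
  refine ⟨fun i => y (φ i), fun i hi => ?_, ?_⟩
  · apply hy
    rw [mem_compl, mem_map]
    rintro ⟨i', hi', h⟩
    rw [φ.injective h] at hi'
    exact (mem_compl.1 hi') hi
  · funext j
    unfold app
    have h1 : ∑ i, y i * a i j = ∑ i ∈ univ.map φ, y i * a i j := by
      symm
      refine Finset.sum_subset (subset_univ _) fun i _ hi => ?_
      rw [hy i, zero_mul]
      rw [mem_compl]
      intro h
      apply hi
      rw [mem_map] at h ⊢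
      obtain ⟨i', _, h⟩ := h
      exact ⟨i', mem_univ _, h⟩
    rw [h1, Finset.sum_map]

theorem exists_good {n M c K D r k : ℕ} (hM : 0 < M) (hMr : M ≤ r) (hc : Even c) (hK : 0 < K)
    (hN1 : 4 * ((2 * n).choose M * (2 * n).choose (r - M)) ≤ K ^ (r - M))
    (hN2 : 4 * ((2 * n).choose r * 2 ^ M) ≤ K ^ r)
    (hN3 : 4 * (M * (M + 3) ^ (2 * n * c)) ≤ 2 ^ k * (n + 1) * (M ^ c) ^ (2 * n))
    (hN4 : ∀ s, D < s → K * ((M - s) ^ c + c ^ 2 * M ^ (c - 1)) ≤ M ^ c) :
    ∃ a : Fin n → Fin M → ZMod 2, Good a c K D r k := by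
  classical
  have : Nonempty (Fin M) := ⟨⟨0, hM⟩⟩
  set N := 2 * n with hN
  set tot := (M ^ c) ^ N with htot
  have htotpos : 0 < tot := pow_pos (pow_pos hM _) _
  have hcardtot : (univ : Finset (Fin N → Fin c → Fin M)).card = tot := by
    rw [card_univ, Fintype.card_fun, Fintype.card_fun, Fintype.card_fin, Fintype.card_fin,
      Fintype.card_fin]
  have hb1 : 4 * (bad1 (Fin N) (Fin M) c K r).card ≤ tot := by
    have h := card_bad1 (I := Fin N) (J := Fin M) c K r (by rwa [Fintype.card_fin])
    rw [Fintype.card_fin, Fintype.card_fin] at h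
    have hKp : 0 < K ^ (r - M) := pow_pos hK _
    refine Nat.le_of_mul_le_mul_left ?_ hKp
    calc K ^ (r - M) * (4 * (bad1 (Fin N) (Fin M) c K r).card)
        = 4 * (K ^ (r - M) * (bad1 (Fin N) (Fin M) c K r).card) := by ring
      _ ≤ 4 * (N.choose M * N.choose (r - M) * tot) := Nat.mul_le_mul_left _ h
      _ = 4 * (N.choose M * N.choose (r - M)) * tot := by ring
      _ ≤ K ^ (r - M) * tot := Nat.mul_le_mul_right _ hN1
  have hb4 : 4 * (bad4 (Fin N) (Fin M) c D r).card ≤ tot := by
    have h := card_bad4 (I := Fin N) (J := Fin M) c K D r (by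
      intro S hS
      rw [Fintype.card_fin]
      refine le_trans (Nat.mul_le_mul_left _ (card_van_le c S)) ?_
      rw [Fintype.card_fin]
      exact hN4 _ hS)
    rw [Fintype.card_fin, Fintype.card_fin] at h
    have hKp : 0 < K ^ r := pow_pos hK _
    refine Nat.le_of_mul_le_mul_left ?_ hKp
    calc K ^ r * (4 * (bad4 (Fin N) (Fin M) c D r).card)
        = 4 * (K ^ r * (bad4 (Fin N) (Fin M) c D r).card) := by ring
      _ ≤ 4 * (N.choose r * 2 ^ M * tot) := Nat.mul_le_mul_left _ h
      _ = 4 * (N.choose r * 2 ^ M) * tot := by ring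
      _ ≤ K ^ r * tot := Nat.mul_le_mul_right _ hN2
  have hb3 : 4 * (bad3 (Fin N) (Fin M) c k n).card ≤ tot := by
    have h := card_bad3 (I := Fin N) (J := Fin M) c k n
    rw [Fintype.card_fin, Fintype.card_fin] at h
    have hKp : 0 < 2 ^ k * (n + 1) := by positivity
    refine Nat.le_of_mul_le_mul_left ?_ hKp
    calc 2 ^ k * (n + 1) * (4 * (bad3 (Fin N) (Fin M) c k n).card)
        = 4 * (2 ^ k * ((n + 1) * (bad3 (Fin N) (Fin M) c k n).card)) := by ring
      _ ≤ 4 * (M * (M + 3) ^ (N * c)) := Nat.mul_le_mul_left _ h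
      _ ≤ _ := hN3
  have hex : ∃ f : Fin N → Fin c → Fin M, f ∉ bad1 (Fin N) (Fin M) c K r ∧
      f ∉ bad4 (Fin N) (Fin M) c D r ∧ f ∉ bad3 (Fin N) (Fin M) c k n := by
    by_contra hcon
    push Not at hcon
    have hsub : (univ : Finset (Fin N → Fin c → Fin M)) ⊆
        (bad1 (Fin N) (Fin M) c K r ∪ bad4 (Fin N) (Fin M) c D r) ∪
          bad3 (Fin N) (Fin M) c k n := by
      intro f _
      simp only [mem_union]
      by_cases h1 : f ∈ bad1 (Fin N) (Fin M) c K r
      · exact Or.inl (Or.inl h1)
      · by_cases h4 : f ∈ bad4 (Fin N) (Fin M) c D r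
        · exact Or.inl (Or.inr h4)
        · exact Or.inr (hcon f h1 h4)
    have hc1 := card_le_card hsub
    rw [hcardtot] at hc1
    have hc2 := card_union_le (bad1 (Fin N) (Fin M) c K r ∪ bad4 (Fin N) (Fin M) c D r)
      (bad3 (Fin N) (Fin M) c k n)
    have hc3 := card_union_le (bad1 (Fin N) (Fin M) c K r) (bad4 (Fin N) (Fin M) c D r)
    omega
  obtain ⟨f, hf1, hf4, hf3⟩ := hex
  simp only [bad1, mem_filter, mem_univ, true_and, not_exists, not_and, not_lt] at hf1
  simp only [bad4, mem_filter, mem_univ, true_and, not_exists, not_and] at hf4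
  simp only [bad3, mem_filter, mem_univ, true_and, not_lt] at hf3
  -- choose n columns avoiding the heavy ones
  have hZ : n ≤ (heavy k f)ᶜ.card := by
    rw [card_compl, Fintype.card_fin]
    omega
  obtain ⟨I0, hI0, hI0c⟩ := Finset.exists_subset_card_eq hZ
  set φ : Fin n ↪ Fin N := (I0.orderEmbOfFin hI0c).toEmbedding with hφ
  have hφmem : ∀ i, φ i ∉ heavy k f := by
    intro i
    exact mem_compl.1 (hI0 (I0.orderEmbOfFin_mem hI0c i))
  refine ⟨fun i => cols f (φ i), ?_, ?_, ?_, ?_⟩
  · intro i
    unfold cols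
    rw [sum_sumE]
    obtain ⟨m, hm⟩ := hc
    rw [hm, Nat.cast_add]
    exact CharTwo.add_self_eq_zero _
  · intro j
    by_cases hj : k < inc f j
    · have : (univ.filter fun i => cols f (φ i) j ≠ 0) = ∅ := by
        rw [Finset.filter_eq_empty_iff]
        intro i _
        rw [not_not]
        by_contra hne
        obtain ⟨l, hl⟩ := exists_of_sumE_ne_zero hne
        apply hφmem i
        rw [heavy, mem_filter]
        exact ⟨mem_univ _, l, by rw [hl]; exact hj⟩
      rw [this]
      simp
    · rw [not_lt] at hj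
      refine le_trans ?_ hj
      unfold inc
      have : ((univ.filter fun i => cols f (φ i) j ≠ 0).map φ) ⊆
          (univ.filter fun p : Fin N × Fin c => f p.1 p.2 = j).image Prod.fst := by
        intro i hi
        rw [mem_map] at hi
        obtain ⟨i', hi', rfl⟩ := hi
        rw [mem_filter] at hi'
        obtain ⟨l, hl⟩ := exists_of_sumE_ne_zero hi'.2
        rw [mem_image]
        exact ⟨(φ i', l), mem_filter.2 ⟨mem_univ _, hl⟩, rfl⟩
      have h2 := card_le_card this
      rw [card_map] at h2
      exact h2.trans card_image_le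
  · intro T hT
    have h := hf1 (Tᶜ.map φ) (by rwa [card_map])
    refine h.trans (Nat.mul_le_mul_left _ (card_le_card ?_))
    intro g hg
    rw [mem_filter] at hg ⊢
    exact ⟨mem_univ _, W_comp (cols f) φ T hg.2⟩
  · intro F hF S hS
    have h := hf4 (F.map φ) (by rwa [card_map]) S hS
    push Not at h
    obtain ⟨i, hi, j, hj, hne⟩ := h
    rw [mem_map] at hi
    obtain ⟨i', hi', rfl⟩ := hi
    exact ⟨i', hi', j, hj, hne⟩

end Pool.Agent.H73.Xor
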