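import Pool.Agent.H73.Xor.Basic

/-!
# The double counting lemma
-/

open Finset

namespace Pool.Agent.H73.Xor

variable {I J : Type*} [Fintype I] [DecidableEq I] [Fintype J] [DecidableEq J]

/-- the mass identity: a weighted partition of the Boolean cube into cubes distributes the
solutions of `A x = b + v` -/
lemma sum_mass {ι : Type*} [Fintype ι] (a : I → J → ZMod 2) (b : J → ZMod 2)
    (T : ι → Finset I) (ρ : ι → I → ZMod 2) (w : ι → ℝ)
    (hw : ∀ x : I → ZMod 2, ∑ t, (if Agree (T t) (ρ t) x then w t else 0) = 1)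
    (v : J → ZMod 2) :
    ∑ t, (if v ∈ V a b (T t) (ρ t) then w t * (nu a (T t) : ℝ) else 0) =
      if v ∈ V a b ∅ 0 then (nu a ∅ : ℝ) else 0 := by
  have h1 : ∀ t, (if v ∈ V a b (T t) (ρ t) then w t * (nu a (T t) : ℝ) else 0) =
      ∑ x : I → ZMod 2, if Agree (T t) (ρ t) x ∧ app a x = b + v then w t else 0 := by
    intro t
    rw [← Finset.sum_filter, Finset.sum_const, card_cube_residual, nsmul_eq_mul]
    split_ifs
    · ring
    · simp
  rw [Finset.sum_congr rfl (fun t _ => h1 t), Finset.sum_comm]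
  have h2 : ∀ x : I → ZMod 2,
      (∑ t, if Agree (T t) (ρ t) x ∧ app a x = b + v then w t else 0) =
      if app a x = b + v then (1 : ℝ) else 0 := by
    intro x
    by_cases h : app a x = b + v
    · simp only [h, and_true, if_true]
      exact hw x
    · simp [h]
  rw [Finset.sum_congr rfl (fun x _ => h2 x), ← Finset.sum_filter, Finset.sum_const, nsmul_eq_mul,
    mul_one]
  have h3 := card_cube_residual a b ∅ 0 v
  have h4 : (univ.filter fun x : I → ZMod 2 => app a x = b + v) =
      univ.filter fun x : I → ZMod 2 => Agree ∅ 0 x ∧ app a x = b + v := by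
    ext x; simp [Agree]
  rw [h4, h3]
  split_ifs <;> simp

/-- the rows whose unit vector is a residual -/
def S (a : I → J → ZMod 2) (b : J → ZMod 2) (T : Finset I) (ρ : I → ZMod 2) : Finset J :=
  univ.filter fun j => (Pi.single j 1 : J → ZMod 2) ∈ V a b T ρ

lemma mem_S (a : I → J → ZMod 2) (b : J → ZMod 2) (T : Finset I) (ρ : I → ZMod 2) (j : J) :
    j ∈ S a b T ρ ↔ (Pi.single j 1 : J → ZMod 2) ∈ V a b T ρ := by
  simp [S]

/-- the mass of tuples -/
def G (q : ℕ) (a : I → J → ZMod 2) (b : J → ZMod 2) (T : Finset I) (ρ : I → ZMod 2) :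
    Finset (Fin q → J) :=
  univ.filter fun g => sumE g ∈ V a b T ρ

lemma sum_mass_card {ι K : Type*} [Fintype ι] [Fintype K] (a : I → J → ZMod 2) (b : J → ZMod 2)
    (T : ι → Finset I) (ρ : ι → I → ZMod 2) (w : ι → ℝ)
    (hw : ∀ x : I → ZMod 2, ∑ t, (if Agree (T t) (ρ t) x then w t else 0) = 1)
    (F : K → J → ZMod 2) :
    ∑ t, w t * (nu a (T t) : ℝ) * ((univ.filter fun k => F k ∈ V a b (T t) (ρ t)).card : ℝ) =
      (nu a ∅ : ℝ) * ((univ.filter fun k => F k ∈ V a b ∅ 0).card : ℝ) := by
  have h1 : ∀ t, w t * (nu a (T t) : ℝ) *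
      ((univ.filter fun k => F k ∈ V a b (T t) (ρ t)).card : ℝ) =
      ∑ k, if F k ∈ V a b (T t) (ρ t) then w t * (nu a (T t) : ℝ) else 0 := by
    intro t
    rw [← Finset.sum_filter, Finset.sum_const, nsmul_eq_mul, mul_comm]
  rw [Finset.sum_congr rfl (fun t _ => h1 t), Finset.sum_comm,
    Finset.sum_congr rfl (fun k _ => sum_mass a b T ρ w hw (F k)), ← Finset.sum_filter,
    Finset.sum_const, nsmul_eq_mul, mul_comm]

/-- number of coordinates of a tuple in a set -/
def hits {c : ℕ} (S : Finset J) (h : Fin c → J) : ℕ := (univ.filter fun l => h l ∈ S).card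

lemma card_hits_le {c : ℕ} (S : Finset J) (L : ℕ) :
    (univ.filter fun h : Fin c → J => L ≤ hits S h).card ≤
      c.choose L * (S.card ^ L * (Fintype.card J) ^ (c - L)) := by
  classical
  have hsub : (univ.filter fun h : Fin c → J => L ≤ hits S h) ⊆
      ((univ : Finset (Fin c)).powersetCard L).biUnion fun P =>
        Fintype.piFinset fun l => if l ∈ P then S else univ := by
    intro h hh
    simp only [mem_filter, mem_univ, true_and] at hh
    obtain ⟨P, hP, hPc⟩ := Finset.exists_subset_card_eq hh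
    rw [mem_biUnion]
    refine ⟨P, mem_powersetCard.2 ⟨subset_univ _, hPc⟩, ?_⟩
    rw [Fintype.mem_piFinset]
    intro l
    by_cases hl : l ∈ P
    · rw [if_pos hl]
      exact (mem_filter.1 (hP hl)).2
    · rw [if_neg hl]
      exact mem_univ _
  refine (card_le_card hsub).trans (card_biUnion_le.trans ?_)
  have h2 : ∀ P ∈ (univ : Finset (Fin c)).powersetCard L,
      (Fintype.piFinset fun l => if l ∈ P then S else univ).card =
        S.card ^ L * (Fintype.card J) ^ (c - L) := by
    intro P hP
    rw [mem_powersetCard] at hP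
    rw [Fintype.card_piFinset]
    have : ∀ l : Fin c, (if l ∈ P then S else univ).card =
        if l ∈ P then S.card else Fintype.card J := by
      intro l; split_ifs <;> simp
    rw [Finset.prod_congr rfl (fun l _ => this l), Finset.prod_ite, Finset.prod_const,
      Finset.prod_const]
    congr 2
    · have : (univ.filter fun x => x ∈ P) = P := by ext; simp
      rw [this, hP.2]
    · have : (univ.filter fun x => x ∉ P) = Pᶜ := by ext; simp
      rw [this, card_compl, hP.2, Fintype.card_fin]
  rw [Finset.sum_congr rfl h2, Finset.sum_const, card_powersetCard, smul_eq_mul, card_univ,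
    Fintype.card_fin]

/-- planting a row index of `S` into a tuple -/
lemma plant_count {c : ℕ} (L : ℕ) (a : I → J → ZMod 2) (b : J → ZMod 2)
    (T : Finset I) (ρ : I → ZMod 2) :
    (c + 1) * ((S a b T ρ).card *
      (univ.filter fun h : Fin c → J => sumE h ∈ W a T ∧ hits (S a b T ρ) h < L).card) ≤
      L * (univ.filter fun g : Fin (c + 1) → J => sumE g ∈ V a b T ρ).card := by
  classical
  set R := S a b T ρ with hR
  set H := univ.filter fun h : Fin c → J => sumE h ∈ W a T ∧ hits R h < L with hH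
  have hcard : ((univ : Finset (Fin (c + 1))) ×ˢ (R ×ˢ H)).card = (c + 1) * (R.card * H.card) := by
    rw [card_product, card_product, card_univ, Fintype.card_fin]
  rw [← hcard]
  refine Finset.card_le_mul_card_image_of_maps_to
    (f := fun p : Fin (c + 1) × (J × (Fin c → J)) =>
      (p.1.insertNth p.2.1 p.2.2 : Fin (c + 1) → J)) ?_ L ?_
  · rintro ⟨l, j, h⟩ hp
    rw [mem_product, mem_product] at hp
    obtain ⟨-, hj, hh⟩ := hp
    simp only [hH, mem_filter, mem_univ, true_and] at hh ⊢
    rw [sumE_insertNth]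
    exact (V_add_iff ((mem_S a b T ρ j).1 hj)).2 hh.1
  · intro g _
    by_cases hne : ((univ ×ˢ (R ×ˢ H)).filter fun p : Fin (c + 1) × (J × (Fin c → J)) =>
        (p.1.insertNth p.2.1 p.2.2 : Fin (c + 1) → J) = g).Nonempty
    · obtain ⟨⟨l0, j0, h0⟩, hp0⟩ := hne
      rw [mem_filter, mem_product, mem_product] at hp0
      obtain ⟨⟨-, hj0, hh0⟩, hg0⟩ := hp0
      simp only [hH, mem_filter, mem_univ, true_and] at hh0
      have hhit : hits R g ≤ L := by
        have : hits R g = hits R h0 + 1 := by
          rw [← hg0]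
          unfold hits
          simp only [card_filter]
          rw [Fin.sum_univ_succAbove _ l0]
          simp only [Fin.insertNth_apply_same, Fin.insertNth_apply_succAbove]
          simp only at hj0
          rw [if_pos hj0, add_comm]
        omega
      refine le_trans ?_ hhit
      unfold hits
      refine Finset.card_le_card_of_injOn (fun p => p.1) ?_ ?_
      · rintro ⟨l, j, h⟩ hp
        simp only [coe_filter, mem_product, Set.mem_setOf_eq, mem_univ, true_and] at hp ⊢
        obtain ⟨⟨hj, hh⟩, hg⟩ := hp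
        rw [← hg]
        simpa using hj
      · rintro ⟨l, j, h⟩ hp ⟨l', j', h'⟩ hp' hll
        simp only [coe_filter, mem_product, Set.mem_setOf_eq, mem_univ, true_and] at hp hp' hll
        subst hll
        have := hp.2.trans hp'.2.symm
        have h1 : j = j' := by
          have := congrFun this l
          simpa using this
        have h2 : h = h' := by
          funext m
          have := congrFun this (l.succAbove m)
          simpa using this
        rw [h1, h2]
    · rw [Finset.not_nonempty_iff_eq_empty] at hne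
      rw [hne]
      simp

lemma card_tuples_le {c s : ℕ} (a : I → J → ZMod 2) (b : J → ZMod 2)
    (hs : ∀ j : J, (univ.filter fun j' : J =>
      (Pi.single j 1 + Pi.single j' 1 : J → ZMod 2) ∈ W a ∅).card ≤ s) :
    (univ.filter fun g : Fin (c + 1) → J => sumE g ∈ V a b ∅ 0).card ≤
      s * (Fintype.card J) ^ c := by
  classical
  have hc : (univ : Finset (Fin c → J)).card = (Fintype.card J) ^ c := by
    rw [card_univ, Fintype.card_fun, Fintype.card_fin]
  rw [← hc]
  refine Finset.card_le_mul_card_image_of_maps_to (f := fun g : Fin (c + 1) → J => Fin.tail g)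
    (fun _ _ => mem_univ _) s ?_
  intro h _
  by_cases hne : ((univ.filter fun g : Fin (c + 1) → J => sumE g ∈ V a b ∅ 0).filter
      fun g => Fin.tail g = h).Nonempty
  · obtain ⟨g0, hg0⟩ := hne
    rw [mem_filter, mem_filter] at hg0
    obtain ⟨⟨-, hg0⟩, hh0⟩ := hg0
    have key : ∀ g : Fin (c + 1) → J, Fin.tail g = h → sumE g = Pi.single (g 0) 1 + sumE h := by
      intro g hg
      rw [← hg]
      unfold sumE
      rw [Fin.sum_univ_succ]
      rfl
    refine le_trans (Finset.card_le_card_of_injOn (fun g => g 0) ?_ ?_) (hs (g0 0))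
    · intro g hg
      simp only [coe_filter, mem_filter, Set.mem_setOf_eq, mem_univ, true_and] at hg ⊢
      rw [← V_add_iff (b := b) (ρ := 0) hg0, key g0 hh0]
      have : Pi.single (g0 0) 1 + sumE h + (Pi.single (g0 0) 1 + Pi.single (g 0) 1) =
          (Pi.single (g0 0) (1 : ZMod 2) + Pi.single (g0 0) 1) + (Pi.single (g 0) 1 + sumE h) := by
        abel
      rw [this, z2_add_self, zero_add, ← key g hg.2]
      exact hg.1
    · intro g hg g' hg' hgg
      simp only [coe_filter, mem_filter, Set.mem_setOf_eq, mem_univ, true_and] at hg hg' hgg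
      rw [← Fin.cons_self_tail g, ← Fin.cons_self_tail g', hgg, hg.2, hg'.2]
  · rw [Finset.not_nonempty_iff_eq_empty] at hne
    rw [hne]
    simp

/-- The double counting lemma. In a weighted partition of `{0,1}^I` into cubes, the cubes
leaving many variables free but having only few residual rows carry at most half of the mass. -/
theorem lemmaG {ι : Type*} [Fintype ι] {a : I → J → ZMod 2} {j0 : J} {c L D K s r : ℕ}
    (hs : ∀ j : J, (univ.filter fun j' : J =>
      (Pi.single j 1 + Pi.single j' 1 : J → ZMod 2) ∈ W a ∅).card ≤ s)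
    (hP1 : ∀ T : Finset I, r ≤ Tᶜ.card →
      (Fintype.card J) ^ c ≤ K * (univ.filter fun h : Fin c → J => sumE h ∈ W a T).card)
    (hP5 : 2 * K * (c.choose L * D ^ L) ≤ (Fintype.card J) ^ L)
    (hLc : L ≤ c) (hq : 4 * K * L ≤ c + 1)
    (T : ι → Finset I) (ρ : ι → I → ZMod 2) (w : ι → ℝ) (hw0 : ∀ t, 0 ≤ w t)
    (hw : ∀ x : I → ZMod 2, ∑ t, (if Agree (T t) (ρ t) x then w t else 0) = 1)
    (B : Finset ι)
    (hB : ∀ t ∈ B, r ≤ (T t)ᶜ.card ∧ (S a (Pi.single j0 1) (T t) (ρ t)).card ≤ D) :
    2 * ∑ t ∈ B, w t * (nu a (T t) : ℝ) * ((S a (Pi.single j0 1) (T t) (ρ t)).card : ℝ) ≤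
      (nu a ∅ : ℝ) * s := by
  classical
  rcases B.eq_empty_or_nonempty with rfl | ⟨t0, ht0⟩
  · simp only [sum_empty, mul_zero]
    positivity
  set M := Fintype.card J with hM
  have hMpos : 0 < M := Fintype.card_pos_iff.2 ⟨j0⟩
  have hKpos : 0 < K := by
    rcases Nat.eq_zero_or_pos K with h | h
    · have := hP1 (T t0) (hB t0 ht0).1
      rw [h, zero_mul] at this
      have h2 : 0 < M ^ c := pow_pos hMpos c
      omega
    · exact h
  have hLpos : 0 < L := by
    rcases Nat.eq_zero_or_pos L with h | h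
    · rw [h] at hP5
      simp only [Nat.choose_zero_right, pow_zero, mul_one] at hP5
      omega
    · exact h
  set b : J → ZMod 2 := Pi.single j0 1 with hb
  have htot := sum_mass_card a b T ρ w hw (fun g : Fin (c + 1) → J => sumE g)
  have hle := card_tuples_le (c := c) a b hs
  -- each bad cube
  have hbad : ∀ t ∈ B, (c + 1) * ((S a b (T t) (ρ t)).card * M ^ c) ≤
      2 * K * L * (univ.filter fun g : Fin (c + 1) → J => sumE g ∈ V a b (T t) (ρ t)).card := by
    intro t ht
    obtain ⟨hr, hD⟩ := hB t ht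
    have h1 := hP1 (T t) hr
    have h2 := card_hits_le (c := c) (S a b (T t) (ρ t)) L
    have h3 := plant_count (c := c) L a b (T t) (ρ t)
    set HW := (univ.filter fun h : Fin c → J => sumE h ∈ W a (T t)) with hHW
    set HL := (univ.filter fun h : Fin c → J => L ≤ hits (S a b (T t) (ρ t)) h) with hHL
    set HG := (univ.filter fun h : Fin c → J =>
      sumE h ∈ W a (T t) ∧ hits (S a b (T t) (ρ t)) h < L) with hHG
    have h4 : HW.card ≤ HG.card + HL.card := by
      refine le_trans (card_le_card ?_) (card_union_le _ _)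
      intro h hh
      simp only [hHW, hHG, hHL, mem_union, mem_filter, mem_univ, true_and] at hh ⊢
      rcases lt_or_ge (hits (S a b (T t) (ρ t)) h) L with h5 | h5
      · exact Or.inl ⟨hh, h5⟩
      · exact Or.inr h5
    have h5 : 2 * K * HL.card ≤ M ^ c := by
      calc 2 * K * HL.card ≤ 2 * K * (c.choose L * ((S a b (T t) (ρ t)).card ^ L * M ^ (c - L))) :=
            Nat.mul_le_mul_left _ h2
        _ ≤ 2 * K * (c.choose L * (D ^ L * M ^ (c - L))) := by gcongr
        _ = (2 * K * (c.choose L * D ^ L)) * M ^ (c - L) := by ring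
        _ ≤ M ^ L * M ^ (c - L) := Nat.mul_le_mul_right _ hP5
        _ = M ^ c := by rw [← pow_add]; congr 1; omega
    have h6 : M ^ c ≤ 2 * K * HG.card := by
      have h7 : 2 * M ^ c ≤ 2 * (K * HW.card) := Nat.mul_le_mul_left _ h1
      have h8 : 2 * (K * HW.card) ≤ 2 * K * HG.card + 2 * K * HL.card := by
        calc 2 * (K * HW.card) = 2 * K * HW.card := by ring
          _ ≤ 2 * K * (HG.card + HL.card) := Nat.mul_le_mul_left _ h4
          _ = _ := by ring
      omega
    calc (c + 1) * ((S a b (T t) (ρ t)).card * M ^ c)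
        ≤ (c + 1) * ((S a b (T t) (ρ t)).card * (2 * K * HG.card)) := by gcongr
      _ = 2 * K * ((c + 1) * ((S a b (T t) (ρ t)).card * HG.card)) := by ring
      _ ≤ 2 * K * (L * _) := Nat.mul_le_mul_left _ h3
      _ = _ := by ring
  -- sum over the bad cubes
  have hwn : ∀ t, 0 ≤ w t * (nu a (T t) : ℝ) := fun t => mul_nonneg (hw0 t) (Nat.cast_nonneg _)
  set X := ∑ t ∈ B, w t * (nu a (T t) : ℝ) * ((S a b (T t) (ρ t)).card : ℝ) with hX
  have hXnn : 0 ≤ X := Finset.sum_nonneg fun t _ => mul_nonneg (hwn t) (Nat.cast_nonneg _)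
  have hsum : ((c : ℝ) + 1) * X * (M : ℝ) ^ c ≤
      2 * K * L * ((nu a ∅ : ℝ) * (s * (M : ℝ) ^ c)) := by
    calc ((c : ℝ) + 1) * X * (M : ℝ) ^ c
        = ∑ t ∈ B, w t * (nu a (T t) : ℝ) *
            (((c : ℝ) + 1) * (((S a b (T t) (ρ t)).card : ℝ) * (M : ℝ) ^ c)) := by
          rw [hX, Finset.mul_sum, Finset.sum_mul]
          refine Finset.sum_congr rfl fun t _ => ?_
          ring
      _ ≤ ∑ t ∈ B, w t * (nu a (T t) : ℝ) * (2 * K * L *
            ((univ.filter fun g : Fin (c + 1) → J => sumE g ∈ V a b (T t) (ρ t)).card : ℝ)) := by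
          refine Finset.sum_le_sum fun t ht => mul_le_mul_of_nonneg_left ?_ (hwn t)
          exact_mod_cast hbad t ht
      _ ≤ ∑ t, w t * (nu a (T t) : ℝ) * (2 * K * L *
            ((univ.filter fun g : Fin (c + 1) → J => sumE g ∈ V a b (T t) (ρ t)).card : ℝ)) := by
          refine Finset.sum_le_sum_of_subset_of_nonneg (subset_univ _) fun t _ _ => ?_
          exact mul_nonneg (hwn t) (by positivity)
      _ = 2 * K * L * ∑ t, w t * (nu a (T t) : ℝ) *
            ((univ.filter fun g : Fin (c + 1) → J => sumE g ∈ V a b (T t) (ρ t)).card : ℝ) := by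
          rw [Finset.mul_sum]
          refine Finset.sum_congr rfl fun t _ => ?_
          ring
      _ = 2 * K * L * ((nu a ∅ : ℝ) *
            ((univ.filter fun g : Fin (c + 1) → J => sumE g ∈ V a b ∅ 0).card : ℝ)) := by
          rw [htot]
      _ ≤ 2 * K * L * ((nu a ∅ : ℝ) * (s * (M : ℝ) ^ c)) := by
          gcongr
          exact_mod_cast hle
  have hMc : (0 : ℝ) < (M : ℝ) ^ c := by positivity
  have h9 : ((c : ℝ) + 1) * X ≤ 2 * K * L * ((nu a ∅ : ℝ) * s) := by
    have : ((c : ℝ) + 1) * X * (M : ℝ) ^ c ≤ 2 * K * L * ((nu a ∅ : ℝ) * s) * (M : ℝ) ^ c := by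
      calc _ ≤ _ := hsum
        _ = _ := by ring
    exact le_of_mul_le_mul_right this hMc
  have h10 : (4 * K * L : ℝ) * X ≤ ((c : ℝ) + 1) * X := by
    refine mul_le_mul_of_nonneg_right ?_ hXnn
    exact_mod_cast hq
  have hKL : (0 : ℝ) < 2 * K * L := by positivity
  have h11 : (2 * K * L : ℝ) * (2 * X) ≤ (2 * K * L : ℝ) * ((nu a ∅ : ℝ) * s) := by
    calc (2 * K * L : ℝ) * (2 * X) = (4 * K * L : ℝ) * X := by ring
      _ ≤ _ := h10
      _ ≤ _ := h9
  exact le_of_mul_le_mul_left h11 hKL

end Pool.Agent.H73.Xor
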